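import Pool.Agent.Q46.HQ.Len

set_option autoImplicit false
open Pointwise

namespace Q46HQ

/-- data of an ascending HNN extension: a height `h`, a stable element `t` and a subgroup `K`. -/
structure Asc (G : Type) [Group G] where
  h : G → ℤ
  h_mul : ∀ a b, h (a * b) = h a + h b
  t : G
  h_t : h t = 1
  K : Subgroup G
  h_K : ∀ k ∈ K, h k = 0
  asc : ∀ k ∈ K, t⁻¹ * k * t ∈ K
  exh : ∀ g, h g = 0 → ∃ n : ℕ, t ^ (-(n : ℤ)) * g * t ^ (n : ℤ) ∈ K

namespace Asc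

variable {G : Type} [Group G] (A : Asc G)

lemma h_one : A.h 1 = 0 := by
  have := A.h_mul 1 1
  simp at this
  exact this

lemma h_inv (g : G) : A.h g⁻¹ = - A.h g := by
  have := A.h_mul g g⁻¹
  rw [mul_inv_cancel, h_one] at this
  omega

lemma h_pow (g : G) (n : ℕ) : A.h (g ^ n) = n * A.h g := by
  induction n with
  | zero => simp [h_one]
  | succ n ih => rw [pow_succ, A.h_mul, ih]; push_cast; ring

lemma h_zpow (g : G) (n : ℤ) : A.h (g ^ n) = n * A.h g := by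
  cases n with
  | ofNat n => simp [h_pow]
  | negSucc n => rw [zpow_negSucc, h_inv, h_pow]; simp [Int.negSucc_eq]; ring

lemma h_tz (n : ℤ) : A.h (A.t ^ n) = n := by rw [h_zpow, A.h_t, mul_one]

lemma asc_pow {k : G} (hk : k ∈ A.K) (n : ℕ) : A.t ^ (-(n : ℤ)) * k * A.t ^ (n : ℤ) ∈ A.K := by
  induction n with
  | zero => simpa using hk
  | succ n ih =>
    have := A.asc _ ih
    have e : A.t⁻¹ * (A.t ^ (-(n : ℤ)) * k * A.t ^ (n : ℤ)) * A.t =
        A.t ^ (-((n + 1 : ℕ) : ℤ)) * k * A.t ^ ((n + 1 : ℕ) : ℤ) := by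
      push_cast
      rw [neg_add, zpow_add, zpow_add]
      have h1 : A.t ^ (-(n : ℤ)) * A.t ^ (-1 : ℤ) = A.t⁻¹ * A.t ^ (-(n : ℤ)) := by
        rw [← zpow_neg_one, ← zpow_add, ← zpow_add]; congr 1; ring
      rw [h1]
      simp only [zpow_one, mul_assoc]
    rw [e] at this
    exact this

/-- `K_n = t^n K t^-n`. -/
def Kn (n : ℤ) (g : G) : Prop := A.t ^ (-n) * g * A.t ^ n ∈ A.K

lemma Kn_zero (g : G) : A.Kn 0 g ↔ g ∈ A.K := by simp [Kn]

lemma Kn_mono {n m : ℤ} (hnm : n ≤ m) {g : G} (hg : A.Kn n g) : A.Kn m g := by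
  obtain ⟨d, hd⟩ := Int.eq_ofNat_of_zero_le (sub_nonneg.mpr hnm)
  have := A.asc_pow hg d
  have e : A.t ^ (-(d : ℤ)) * (A.t ^ (-n) * g * A.t ^ n) * A.t ^ (d : ℤ) =
      A.t ^ (-m) * g * A.t ^ m := by
    have h1 : A.t ^ (-m) = A.t ^ (-(d:ℤ)) * A.t ^ (-n) := by
      rw [← zpow_add]; congr 1; omega
    have h2 : A.t ^ m = A.t ^ n * A.t ^ (d:ℤ) := by
      rw [← zpow_add]; congr 1; omega
    rw [h1, h2]; simp only [mul_assoc]
  unfold Kn
  rw [← e]
  exact this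

lemma Kn_h {n : ℤ} {g : G} (hg : A.Kn n g) : A.h g = 0 := by
  have := A.h_K _ hg
  rw [A.h_mul, A.h_mul, h_tz, h_tz] at this
  omega

lemma Kn_mul {n : ℤ} {g g' : G} (hg : A.Kn n g) (hg' : A.Kn n g') : A.Kn n (g * g') := by
  have := A.K.mul_mem hg hg'
  unfold Kn
  have e : A.t ^ (-n) * g * A.t ^ n * (A.t ^ (-n) * g' * A.t ^ n) = A.t ^ (-n) * (g * g') * A.t ^ n := by
    rw [zpow_neg]; group
  rw [← e]; exact this

lemma Kn_inv {n : ℤ} {g : G} (hg : A.Kn n g) : A.Kn n g⁻¹ := by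
  have := A.K.inv_mem hg
  unfold Kn
  have e : (A.t ^ (-n) * g * A.t ^ n)⁻¹ = A.t ^ (-n) * g⁻¹ * A.t ^ n := by
    rw [zpow_neg]; group
  rw [← e]; exact this

lemma Kn_pow {n : ℤ} {g : G} (hg : A.Kn n g) (m : ℕ) : A.Kn n (g ^ m) := by
  induction m with
  | zero => simp [Kn, A.K.one_mem]
  | succ m ih => rw [pow_succ]; exact A.Kn_mul ih hg

lemma exh' {g : G} (hg : A.h g = 0) : ∃ n : ℕ, A.Kn n g := A.exh g hg

lemma Kn_conj {n : ℤ} {g : G} (hg : A.Kn n g) (m : ℤ) : A.Kn (n + m) (A.t ^ m * g * A.t ^ (-m)) := by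
  unfold Kn at *
  have e : A.t ^ (-(n + m)) * (A.t ^ m * g * A.t ^ (-m)) * A.t ^ (n + m) =
      A.t ^ (-n) * g * A.t ^ n := by
    have h1 : A.t ^ (-(n + m)) = A.t ^ (-n) * A.t ^ (-m) := by rw [← zpow_add]; congr 1; omega
    have h2 : A.t ^ (n + m) = A.t ^ m * A.t ^ n := by rw [← zpow_add]; congr 1; omega
    rw [h1, h2, zpow_neg A.t m]; group
  rw [e]; exact hg

/-- ancestors at height `m` agree -/
def R (m : ℤ) (g g' : G) : Prop :=
  A.h g ≤ m ∧ A.h g' ≤ m ∧ (g * A.t ^ (m - A.h g))⁻¹ * (g' * A.t ^ (m - A.h g')) ∈ A.K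

lemma R_symm {m : ℤ} {g g' : G} (h : A.R m g g') : A.R m g' g := by
  refine ⟨h.2.1, h.1, ?_⟩
  have := A.K.inv_mem h.2.2
  rw [mul_inv_rev, inv_inv] at this
  exact this

lemma R_trans {m : ℤ} {g g' g'' : G} (h : A.R m g g') (h' : A.R m g' g'') : A.R m g g'' := by
  refine ⟨h.1, h'.2.1, ?_⟩
  have := A.K.mul_mem h.2.2 h'.2.2
  have e : (g * A.t ^ (m - A.h g))⁻¹ * (g' * A.t ^ (m - A.h g')) *
      ((g' * A.t ^ (m - A.h g'))⁻¹ * (g'' * A.t ^ (m - A.h g''))) =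
      (g * A.t ^ (m - A.h g))⁻¹ * (g'' * A.t ^ (m - A.h g'')) := by group
  rw [e] at this
  exact this

lemma R_succ {m : ℤ} {g g' : G} (h : A.R m g g') : A.R (m + 1) g g' := by
  refine ⟨by have := h.1; omega, by have := h.2.1; omega, ?_⟩
  have := A.asc _ h.2.2
  have h1 : A.t ^ (m + 1 - A.h g) = A.t ^ (m - A.h g) * A.t := by
    rw [← zpow_add_one]; congr 1; ring
  have h2 : A.t ^ (m + 1 - A.h g') = A.t ^ (m - A.h g') * A.t := by
    rw [← zpow_add_one]; congr 1; ring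
  rw [h1, h2]
  have e : A.t⁻¹ * ((g * A.t ^ (m - A.h g))⁻¹ * (g' * A.t ^ (m - A.h g'))) * A.t =
    (g * (A.t ^ (m - A.h g) * A.t))⁻¹ * (g' * (A.t ^ (m - A.h g') * A.t)) := by
    simp only [mul_inv_rev, mul_assoc]
  rw [e] at this
  exact this

lemma R_mono {m m' : ℤ} (hm : m ≤ m') {g g' : G} (h : A.R m g g') : A.R m' g g' := by
  obtain ⟨d, hd⟩ := Int.eq_ofNat_of_zero_le (sub_nonneg.mpr hm)
  have : ∀ d : ℕ, A.R (m + d) g g' := by
    intro d
    induction d with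
    | zero => simpa using h
    | succ d ih =>
      have := A.R_succ ih
      push_cast
      rw [← add_assoc]
      exact this
  have := this d
  have e : m + (d : ℤ) = m' := by omega
  rw [e] at this
  exact this

lemma R_refl {m : ℤ} {g : G} (h : A.h g ≤ m) : A.R m g g := by
  refine ⟨h, h, ?_⟩
  simp [A.K.one_mem]

lemma R_left {m : ℤ} {g g' : G} (k : G) (h : A.R m g g') : A.R (A.h k + m) (k * g) (k * g') := by
  refine ⟨by rw [A.h_mul]; have := h.1; omega, by rw [A.h_mul]; have := h.2.1; omega, ?_⟩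
  have := h.2.2
  rw [A.h_mul, A.h_mul]
  have h1 : A.h k + m - (A.h k + A.h g) = m - A.h g := by ring
  have h2 : A.h k + m - (A.h k + A.h g') = m - A.h g' := by ring
  rw [h1, h2]
  have e : (g * A.t ^ (m - A.h g))⁻¹ * (g' * A.t ^ (m - A.h g')) =
    (k * g * A.t ^ (m - A.h g))⁻¹ * (k * g' * A.t ^ (m - A.h g')) := by group
  rw [← e]; exact this

lemma R_exists (g g' : G) : ∃ m : ℤ, A.R m g g' := by
  set m0 := max (A.h g) (A.h g')
  set w := (g * A.t ^ (m0 - A.h g))⁻¹ * (g' * A.t ^ (m0 - A.h g')) with hw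
  have hw0 : A.h w = 0 := by
    rw [hw, A.h_mul, h_inv, A.h_mul, A.h_mul, h_tz, h_tz]; ring
  obtain ⟨n, hn⟩ := A.exh w hw0
  refine ⟨m0 + n, ?_, ?_, ?_⟩
  · have : A.h g ≤ m0 := le_max_left _ _
    omega
  · have : A.h g' ≤ m0 := le_max_right _ _
    omega
  · have h1 : A.t ^ (m0 + n - A.h g) = A.t ^ (m0 - A.h g) * A.t ^ (n : ℤ) := by
      rw [← zpow_add]; congr 1; ring
    have h2 : A.t ^ (m0 + n - A.h g') = A.t ^ (m0 - A.h g') * A.t ^ (n : ℤ) := by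
      rw [← zpow_add]; congr 1; ring
    rw [h1, h2]
    have e : A.t ^ (-(n : ℤ)) * w * A.t ^ (n : ℤ) =
      (g * (A.t ^ (m0 - A.h g) * A.t ^ (n : ℤ)))⁻¹ * (g' * (A.t ^ (m0 - A.h g') * A.t ^ (n : ℤ))) := by
      rw [hw, zpow_neg]; simp only [mul_inv_rev, mul_assoc]
    rw [e] at hn
    exact hn

lemma J_exists (g g' : G) : ∃ m : ℤ, A.R m g g' ∧ ∀ m', A.R m' g g' → m ≤ m' := by
  have := Int.exists_least_of_bdd (P := fun m => A.R m g g')
    ⟨A.h g, fun z hz => hz.1⟩ (A.R_exists g g')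
  obtain ⟨lb, h1, h2⟩ := this
  exact ⟨lb, h1, h2⟩

/-- join height -/
noncomputable def J (g g' : G) : ℤ := Classical.choose (A.J_exists g g')

lemma J_le_iff {m : ℤ} {g g' : G} : A.J g g' ≤ m ↔ A.R m g g' := by
  have := Classical.choose_spec (A.J_exists g g')
  constructor
  · intro h; exact A.R_mono h this.1
  · intro h; exact this.2 m h

lemma J_comm (g g' : G) : A.J g g' = A.J g' g := by
  apply le_antisymm
  · rw [A.J_le_iff]; exact A.R_symm (A.J_le_iff.mp le_rfl)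
  · rw [A.J_le_iff]; exact A.R_symm (A.J_le_iff.mp le_rfl)

lemma J_ult (g g' g'' : G) : A.J g g'' ≤ max (A.J g g') (A.J g' g'') := by
  rw [A.J_le_iff]
  exact A.R_trans (A.J_le_iff.mp (le_max_left _ _)) (A.J_le_iff.mp (le_max_right _ _))

lemma J_left (k g g' : G) : A.J (k * g) (k * g') = A.h k + A.J g g' := by
  apply le_antisymm
  · rw [A.J_le_iff]; exact A.R_left k (A.J_le_iff.mp le_rfl)
  · have : A.J (k⁻¹ * (k * g)) (k⁻¹ * (k * g')) ≤ A.h k⁻¹ + A.J (k * g) (k * g') := by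
      rw [A.J_le_iff]; exact A.R_left k⁻¹ (A.J_le_iff.mp le_rfl)
    rw [inv_mul_cancel_left, inv_mul_cancel_left, h_inv] at this
    omega

lemma h_le_J (g g' : G) : A.h g ≤ A.J g g' := (A.J_le_iff.mp (le_refl (A.J g g'))).1
lemma h_le_J' (g g' : G) : A.h g' ≤ A.J g g' := (A.J_le_iff.mp (le_refl (A.J g g'))).2.1

/-- tree distance -/
noncomputable def dT (g g' : G) : ℤ := 2 * A.J g g' - A.h g - A.h g'

lemma dT_left (k g g' : G) : A.dT (k * g) (k * g') = A.dT g g' := by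
  unfold dT; rw [J_left, A.h_mul, A.h_mul]; ring

lemma dT_tri (x y z : G) : A.dT x z ≤ A.dT x y + A.dT y z := by
  unfold dT
  have h1 := A.J_ult x y z
  have h2 := A.h_le_J' x y
  have h3 := A.h_le_J y z
  rcases le_max_iff.mp h1 with h | h <;> omega

lemma dT_comm (x y : G) : A.dT x y = A.dT y x := by
  unfold dT; rw [J_comm]; ring

lemma dT_nonneg (x y : G) : 0 ≤ A.dT x y := by
  unfold dT
  have h2 := A.h_le_J x y
  have h3 := A.h_le_J' x y
  omega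

/-- the standard generating set -/
def X : Set G := {g | g ∈ A.K} ∪ {A.t}

lemma dT_K {k : G} (hk : k ∈ A.K) : A.dT 1 k = 0 := by
  have h1 : A.J 1 k ≤ 0 := by
    rw [A.J_le_iff]
    refine ⟨by rw [h_one], by rw [A.h_K k hk], ?_⟩
    rw [h_one, A.h_K k hk]; simpa using hk
  have := A.dT_nonneg 1 k
  unfold dT at *
  rw [h_one, A.h_K k hk] at *
  omega

lemma dT_t : A.dT 1 A.t ≤ 1 := by
  have h1 : A.J 1 A.t ≤ 1 := by
    rw [A.J_le_iff]
    refine ⟨by rw [h_one]; norm_num, by rw [A.h_t], ?_⟩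
    rw [h_one, A.h_t]; simp [A.K.one_mem]
  unfold dT
  rw [h_one, A.h_t]
  omega

lemma dT_gen {x : G} (hx : x ∈ A.X ∪ A.X⁻¹) : A.dT 1 x ≤ 1 := by
  rcases hx with (hx | hx) | hx
  · rw [A.dT_K hx]; norm_num
  · rw [hx]; exact A.dT_t
  · have hx' : x⁻¹ ∈ A.X := hx
    have e : A.dT 1 x = A.dT 1 x⁻¹ := by
      have := A.dT_left x 1 x⁻¹
      rw [mul_one, mul_inv_cancel, A.dT_comm] at this
      exact this
    rw [e]
    rcases hx' with hx | hx
    · rw [A.dT_K hx]; norm_num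
    · rw [hx]; exact A.dT_t

lemma dT_pow {n : ℕ} : ∀ {g : G}, g ∈ (A.X ∪ A.X⁻¹) ^ n → A.dT 1 g ≤ n := by
  induction n with
  | zero =>
    intro g hg
    simp only [pow_zero, Set.mem_one] at hg
    rw [hg, A.dT_K A.K.one_mem]; norm_num
  | succ n ih =>
    intro g hg
    rw [pow_succ, Set.mem_mul] at hg
    obtain ⟨a, ha, b, hb, rfl⟩ := hg
    have h1 := A.dT_tri 1 a (a * b)
    have h2 : A.dT a (a * b) = A.dT 1 b := by
      have := A.dT_left a 1 b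
      rwa [mul_one] at this
    have h3 := ih ha
    have h4 := A.dT_gen hb
    push_cast
    omega

lemma closure_X : Subgroup.closure A.X = ⊤ := by
  rw [eq_top_iff]
  intro g _
  have ht : A.t ∈ Subgroup.closure A.X := Subgroup.subset_closure (Or.inr rfl)
  have hK : ∀ k ∈ A.K, k ∈ Subgroup.closure A.X := fun k hk => Subgroup.subset_closure (Or.inl hk)
  have h0 : A.h (A.t ^ (-(A.h g)) * g) = 0 := by rw [A.h_mul, h_tz]; ring
  obtain ⟨n, hn⟩ := A.exh _ h0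
  have h1 := hK _ hn
  set c := A.t ^ (-(n : ℤ)) * (A.t ^ (-(A.h g)) * g) * A.t ^ (n : ℤ) with hc
  have e : g = A.t ^ (A.h g) * (A.t ^ (n : ℤ) * c * A.t ^ (-(n : ℤ))) := by
    rw [hc, zpow_neg, zpow_neg]; group
  rw [e]
  have hz : ∀ z : ℤ, A.t ^ z ∈ Subgroup.closure A.X := fun z => Subgroup.zpow_mem _ ht z
  exact Subgroup.mul_mem _ (hz _) (Subgroup.mul_mem _ (Subgroup.mul_mem _ (hz _) h1) (hz _))

lemma wl_lower (g : G) : A.dT 1 g ≤ wl A.X g :=
  A.dT_pow (mem_pow_wl (exists_pow A.closure_X g))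

/-- normal form -/
lemma normal_form (g : G) : ∃ p q : ℕ, ∃ k ∈ A.K, g = A.t ^ (p : ℤ) * k * A.t ^ (-(q : ℤ)) ∧
    A.dT 1 g = p + q ∧ A.h g = p - q ∧ A.J 1 g = p := by
  have hR := A.J_le_iff.mp (le_refl (A.J 1 g))
  have h1 := hR.1
  have h2 := hR.2.1
  rw [h_one] at h1
  obtain ⟨p, hp⟩ := Int.eq_ofNat_of_zero_le h1
  obtain ⟨q, hq⟩ := Int.eq_ofNat_of_zero_le (sub_nonneg.mpr h2)
  refine ⟨p, q, _, hR.2.2, ?_, ?_, by omega, by omega⟩
  · rw [h_one, one_mul, sub_zero, hp]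
    have : (p : ℤ) - A.h g = q := by omega
    rw [this, zpow_neg]; group
  · unfold dT; rw [h_one]; omega

lemma wl_upper (g : G) : (wl A.X g : ℤ) ≤ A.dT 1 g + 1 := by
  obtain ⟨p, q, k, hk, hg, hd, -, -⟩ := A.normal_form g
  have h1 : wl A.X A.t ≤ 1 := wl_gen (Or.inr rfl)
  have h2 : wl A.X k ≤ 1 := wl_gen (Or.inl hk)
  have h3 : wl A.X (A.t ^ (p : ℤ)) ≤ p := by
    rw [zpow_natCast]
    calc wl A.X (A.t ^ p) ≤ p * wl A.X A.t := wl_pow A.closure_X _ _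
      _ ≤ p * 1 := by gcongr
      _ = p := by ring
  have h4 : wl A.X (A.t ^ (-(q : ℤ))) ≤ q := by
    rw [zpow_neg, wl_inv A.closure_X, zpow_natCast]
    calc wl A.X (A.t ^ q) ≤ q * wl A.X A.t := wl_pow A.closure_X _ _
      _ ≤ q * 1 := by gcongr
      _ = q := by ring
  have h5 := wl_mul A.closure_X (A.t ^ (p : ℤ) * k) (A.t ^ (-(q : ℤ)))
  have h6 := wl_mul A.closure_X (A.t ^ (p : ℤ)) k
  rw [hd, hg]
  omega

end Asc
end Q46HQ
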