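import Pool.Agent.Q46.HQ.Model

set_option autoImplicit false

namespace Q46HQ

/-- unit ball around zero -/
def inB (x : Sq) : Prop := ∀ i, 0 ≤ i → x.1 i = none

/-- top nonzero coordinate is at `m` with value `c` -/
def Cc (m : ℤ) (c : ℕ) (x : Sq) : Prop := 0 ≤ m ∧ x.1 m = some c ∧ ∀ i, m < i → x.1 i = none

lemma inB_or (x : Sq) : inB x ∨ ∃ m c, Cc m c x := by
  by_cases h : inB x
  · exact Or.inl h
  · right
    unfold inB at h
    push Not at h
    obtain ⟨N, hN⟩ := x.2
    have := Int.exists_greatest_of_bdd (P := fun i => 0 ≤ i ∧ x.1 i ≠ none)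
      ⟨N, fun z hz => by
        by_contra hlt
        exact hz.2 (hN z (by omega))⟩ h
    obtain ⟨m, ⟨hm0, hm⟩, hmax⟩ := this
    obtain ⟨c, hc⟩ := Option.ne_none_iff_exists'.mp hm
    refine ⟨m, c, hm0, hc, fun i hi => ?_⟩
    by_contra hne
    have := hmax i ⟨by omega, hne⟩
    omega

lemma Cc_uniq {m m' : ℤ} {c c' : ℕ} {x : Sq} (h : Cc m c x) (h' : Cc m' c' x) : m = m' ∧ c = c' := by
  have hm : m = m' := by
    rcases lt_trichotomy m m' with hlt | heq | hlt
    · have := h.2.2 m' hlt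
      rw [h'.2.1] at this; exact absurd this (by simp)
    · exact heq
    · have := h'.2.2 m hlt
      rw [h.2.1] at this; exact absurd this (by simp)
  subst hm
  refine ⟨rfl, ?_⟩
  have := h.2.1.symm.trans h'.2.1
  simpa using this

lemma not_inB_of_Cc {m : ℤ} {c : ℕ} {x : Sq} (h : Cc m c x) : ¬ inB x := by
  intro h'
  have := h' m h.1
  rw [h.2.1] at this
  exact absurd this (by simp)

lemma Cc_of_E {m : ℤ} {c : ℕ} {x y : Sq} (h : Cc m c x) (hE : E m x y) : Cc m c y :=
  ⟨h.1, by rw [← hE m le_rfl]; exact h.2.1, fun i hi => by rw [← hE i hi.le]; exact h.2.2 i hi⟩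

lemma E_of_Cc {m : ℤ} {c : ℕ} {x y : Sq} (h : Cc m c x) (h' : Cc m c y) : E m x y := by
  intro i hi
  rcases eq_or_lt_of_le hi with rfl | hlt
  · rw [h.2.1, h'.2.1]
  · rw [h.2.2 i hlt, h'.2.2 i hlt]

lemma inB_zz : inB zz := fun _ _ => rfl

lemma top_pres {g : GG} (hg : ht g = 0) (hz : act g zz = zz) {m : ℤ} {c : ℕ} {x : Sq}
    (h : Cc m c x) : ∃ c', Cc m c' (act g x) := by
  have h1 : E (m + 1) x zz := fun i hi => h.2.2 i (by omega)
  have h2 := (act_E0 hg _ _ _).mp h1
  rw [hz] at h2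
  have h3 : (act g x).1 m ≠ none := by
    intro hn
    have : E m (act g x) zz := by
      intro i hi
      rcases eq_or_lt_of_le hi with rfl | hlt
      · exact hn
      · exact h2 i (by omega)
    rw [← hz, ← act_E0 hg] at this
    have := this m le_rfl
    rw [h.2.1] at this
    exact absurd this (by simp [zz])
  obtain ⟨c', hc'⟩ := Option.ne_none_iff_exists'.mp h3
  exact ⟨c', h.1, hc', fun i hi => h2 i (by omega)⟩

open Classical in
/-- piecewise map -/
noncomputable def pw (u : ℤ → ℕ → GG) (x : Sq) : Sq :=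
  if h : ∃ p : ℤ × ℕ, Cc p.1 p.2 x then act (u h.choose.1 h.choose.2) x else x

lemma pw_Cc (u : ℤ → ℕ → GG) {m : ℤ} {c : ℕ} {x : Sq} (h : Cc m c x) : pw u x = act (u m c) x := by
  have h' : ∃ p : ℤ × ℕ, Cc p.1 p.2 x := ⟨(m, c), h⟩
  unfold pw
  rw [dif_pos h']
  obtain ⟨h1, h2⟩ := Cc_uniq h h'.choose_spec
  rw [← h1, ← h2]

lemma pw_inB (u : ℤ → ℕ → GG) {x : Sq} (h : inB x) : pw u x = x := by
  unfold pw
  rw [dif_neg]
  rintro ⟨p, hp⟩
  exact not_inB_of_Cc hp h

lemma glue (u v : ℤ → ℕ → GG) (hu0 : ∀ m c, ht (u m c) = 0) (hv0 : ∀ m c, ht (v m c) = 0)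
    (hu : ∀ m c x, Cc m c x → ∃ c', Cc m c' (act (u m c) x) ∧ v m c' = (u m c)⁻¹)
    (hv : ∀ m c x, Cc m c x → ∃ c', Cc m c' (act (v m c) x) ∧ u m c' = (v m c)⁻¹) :
    ∃ g : GG, ht g = 0 ∧ (∀ x, inB x → act g x = x) ∧
      (∀ m c x, Cc m c x → act g x = act (u m c) x) := by
  have inv : ∀ u v : ℤ → ℕ → GG,
      (∀ m c x, Cc m c x → ∃ c', Cc m c' (act (u m c) x) ∧ v m c' = (u m c)⁻¹) →
      ∀ x, pw v (pw u x) = x := by
    intro u v hu x
    rcases inB_or x with h | ⟨m, c, h⟩
    · rw [pw_inB u h, pw_inB v h]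
    · obtain ⟨c', h1, h2⟩ := hu m c x h
      rw [pw_Cc u h, pw_Cc v h1, h2, act_inv_act]
  have iso : ∀ u v : ℤ → ℕ → GG, (∀ m c, ht (u m c) = 0) →
      (∀ m c x, Cc m c x → ∃ c', Cc m c' (act (u m c) x) ∧ v m c' = (u m c)⁻¹) →
      ∀ n x y, E n x y → E n (pw u x) (pw u y) := by
    intro u v hu0 hu n x y hxy
    rcases inB_or x with hx | ⟨m, c, hx⟩ <;> rcases inB_or y with hy | ⟨m', c', hy⟩
    · rw [pw_inB u hx, pw_inB u hy]; exact hxy
    · obtain ⟨d, h1, -⟩ := hu m' c' y hy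
      rw [pw_inB u hx, pw_Cc u hy]
      have hn : m' < n := by
        by_contra hlt
        have := hxy m' (by omega)
        rw [hy.2.1, hx m' hy.1] at this
        exact absurd this (by simp)
      intro i hi
      have := hy.1
      rw [hx i (by omega), h1.2.2 i (by omega)]
    · obtain ⟨d, h1, -⟩ := hu m c x hx
      rw [pw_inB u hy, pw_Cc u hx]
      have hn : m < n := by
        by_contra hlt
        have := hxy m (by omega)
        rw [hx.2.1, hy m hx.1] at this
        exact absurd this (by simp)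
      intro i hi
      have := hx.1
      rw [hy i (by omega), h1.2.2 i (by omega)]
    · obtain ⟨d, h1, -⟩ := hu m c x hx
      obtain ⟨d', h1', -⟩ := hu m' c' y hy
      rw [pw_Cc u hx, pw_Cc u hy]
      by_cases hn : m < n ∧ m' < n
      · intro i hi
        rw [h1.2.2 i (by omega), h1'.2.2 i (by omega)]
      · have hmm : m = m' := by
          rcases lt_trichotomy m m' with hlt | heq | hlt
          · have := hxy m' (by omega)
            rw [hy.2.1, hx.2.2 m' hlt] at this
            exact absurd this (by simp)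
          · exact heq
          · have := hxy m (by omega)
            rw [hx.2.1, hy.2.2 m hlt] at this
            exact absurd this (by simp)
        subst hmm
        have hcc : c = c' := by
          have := hxy m (by omega)
          rw [hx.2.1, hy.2.1] at this
          simpa using this
        subst hcc
        exact (act_E0 (hu0 m c) n _ _).mp hxy
  obtain ⟨g, hg, hg'⟩ := exists_elem (pw u) (pw v) (inv u v hu) (inv v u hv)
    (iso u v hu0 hu) (iso v u hv0 hv)
  refine ⟨g, hg, fun x hx => ?_, fun m c x hx => ?_⟩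
  · rw [hg', pw_inB u hx]
  · rw [hg', pw_Cc u hx]

/-- permuting one coordinate -/
lemma coord_exists (m : ℤ) (ρ : Equiv.Perm (Option ℕ)) :
    ∃ g : GG, ht g = 0 ∧ ∀ x i, (act g x).1 i = if i = m then ρ (x.1 i) else x.1 i := by
  have key : ∀ σ : Equiv.Perm (Option ℕ), ∀ x : Sq, ∃ N : ℤ, ∀ i, N ≤ i →
      (if i = m then σ (x.1 i) else x.1 i) = none := by
    intro σ x
    obtain ⟨N, hN⟩ := x.2
    refine ⟨max N (m + 1), fun i hi => ?_⟩
    rw [if_neg (by omega)]
    exact hN i (by omega)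
  obtain ⟨g, hg, hg'⟩ := exists_elem
    (fun x => ⟨fun i => if i = m then ρ (x.1 i) else x.1 i, key ρ x⟩)
    (fun x => ⟨fun i => if i = m then ρ⁻¹ (x.1 i) else x.1 i, key ρ⁻¹ x⟩)
    (by
      intro x
      apply Subtype.ext
      funext i
      by_cases h : i = m <;> simp [h])
    (by
      intro x
      apply Subtype.ext
      funext i
      by_cases h : i = m <;> simp [h])
    (by
      intro n x y h i hi
      have := h i hi
      change (if i = m then ρ (x.1 i) else x.1 i) = (if i = m then ρ (y.1 i) else y.1 i)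
      rw [this])
    (by
      intro n x y h i hi
      have := h i hi
      change (if i = m then ρ⁻¹ (x.1 i) else x.1 i) = (if i = m then ρ⁻¹ (y.1 i) else y.1 i)
      rw [this])
  refine ⟨g, hg, fun x i => ?_⟩
  rw [hg']

/-- induced level-dependent permutation of top values -/
def Ind (g : GG) (ρ : ℤ → Equiv.Perm ℕ) : Prop :=
  ht g = 0 ∧ (∀ x, inB x → act g x = x) ∧ ∀ m c x, Cc m c x → Cc m (ρ m c) (act g x)

lemma Ind.mul {g g' : GG} {ρ ρ' : ℤ → Equiv.Perm ℕ} (h : Ind g ρ) (h' : Ind g' ρ') :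
    Ind (g * g') (fun m => ρ m * ρ' m) := by
  refine ⟨by rw [ht_mul, h.1, h'.1]; rfl, fun x hx => ?_, fun m c x hx => ?_⟩
  · rw [act_mul, h'.2.1 x hx, h.2.1 x hx]
  · rw [act_mul]
    exact h.2.2 m _ _ (h'.2.2 m c x hx)

lemma fix_inv {g : GG} (h : ∀ x, inB x → act g x = x) : ∀ x, inB x → act g⁻¹ x = x := by
  intro x hx
  conv_lhs => rw [← h x hx]
  exact act_inv_act g x

lemma Ind.inv {g : GG} {ρ : ℤ → Equiv.Perm ℕ} (h : Ind g ρ) : Ind g⁻¹ (fun m => (ρ m)⁻¹) := by
  refine ⟨by rw [ht_inv, h.1]; rfl, fix_inv h.2.1, fun m c x hx => ?_⟩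
  rcases inB_or (act g⁻¹ x) with h1 | ⟨m', c', h1⟩
  · have := h.2.1 _ h1
    rw [act_act_inv] at this
    rw [← this] at h1
    exact absurd h1 (not_inB_of_Cc hx)
  · have h2 := h.2.2 m' c' _ h1
    rw [act_act_inv] at h2
    obtain ⟨h3, h4⟩ := Cc_uniq h2 hx
    subst h3
    rw [← h4]
    simpa using h1

lemma exists_Ind {g : GG} (hg : ht g = 0) (hfix : ∀ x, inB x → act g x = x) :
    ∃ ρ : ℤ → Equiv.Perm ℕ, Ind g ρ := by
  classical
  have hgi : ht g⁻¹ = 0 := by rw [ht_inv, hg]; rfl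
  have hfi := fix_inv hfix
  -- representatives
  have rep : ∀ (m : ℤ) (c : ℕ), ∃ x : Sq, 0 ≤ m → Cc m c x := by
    intro m c
    refine ⟨⟨fun i => if i = m then some c else none, m + 1, fun i hi => by
        dsimp only; rw [if_neg (by omega)]⟩,
      fun hm => ⟨hm, by simp, fun i hi => ?_⟩⟩
    change (if i = m then some c else none) = none
    rw [if_neg (by omega)]
  choose X hX using rep
  have ex : ∀ (g : GG), ht g = 0 → (∀ x, inB x → act g x = x) → ∀ (m : ℤ) (c : ℕ), ∃ c' : ℕ,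
      ∀ x, Cc m c x → Cc m c' (act g x) := by
    intro g hg hfix m c
    by_cases hm : 0 ≤ m
    · obtain ⟨c', hc'⟩ := top_pres hg (hfix zz inB_zz) (hX m c hm)
      refine ⟨c', fun x hx => ?_⟩
      have := (act_E0 hg m _ _).mp (E_of_Cc (hX m c hm) hx)
      exact Cc_of_E hc' this
    · exact ⟨0, fun x hx => absurd hx.1 hm⟩
  choose f hf using ex g hg hfix
  choose f' hf' using ex g⁻¹ hgi hfi
  have inv1 : ∀ m c, 0 ≤ m → f' m (f m c) = c := by
    intro m c hm
    have h1 := hf m c _ (hX m c hm)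
    have h2 := hf' m _ _ h1
    rw [act_inv_act] at h2
    exact (Cc_uniq h2 (hX m c hm)).2
  have inv2 : ∀ m c, 0 ≤ m → f m (f' m c) = c := by
    intro m c hm
    have h1 := hf' m c _ (hX m c hm)
    have h2 := hf m _ _ h1
    rw [act_act_inv] at h2
    exact (Cc_uniq h2 (hX m c hm)).2
  refine ⟨fun m => if hm : 0 ≤ m then ⟨f m, f' m, fun c => inv1 m c hm, fun c => inv2 m c hm⟩ else 1,
    hg, hfix, fun m c x hx => ?_⟩
  simp only [dif_pos hx.1]
  exact hf m c x hx

/-- level-dependent permutation of the top values -/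
lemma Phi_exists (ρ : ℤ → Equiv.Perm ℕ) : ∃ g : GG, Ind g ρ ∧
    ∀ m c x, Cc m c x → ρ m c = c → act g x = x := by
  classical
  choose w hw0 hw using fun (m : ℤ) (σ : Equiv.Perm ℕ) => coord_exists m (Equiv.optionCongr σ)
  have hwC : ∀ (m : ℤ) (σ : Equiv.Perm ℕ) (c : ℕ) (x : Sq), Cc m c x → Cc m (σ c) (act (w m σ) x) := by
    intro m σ c x hx
    refine ⟨hx.1, ?_, fun i hi => ?_⟩
    · rw [hw, if_pos rfl, hx.2.1]; rfl
    · rw [hw, if_neg (by omega)]; exact hx.2.2 i hi
  have hinv : ∀ (m : ℤ) (σ : Equiv.Perm ℕ), (w m σ)⁻¹ = w m σ⁻¹ := by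
    intro m σ
    apply GG_ext
    · rw [ht_inv, hw0, hw0]; rfl
    · intro x
      have : act (w m σ) (act (w m σ⁻¹) x) = x := by
        apply Subtype.ext
        funext i
        rw [hw, hw]
        by_cases h : i = m
        · rw [if_pos h, if_pos h]
          cases x.1 i <;> simp
        · rw [if_neg h, if_neg h]
      conv_lhs => rw [← this]
      exact act_inv_act _ _
  obtain ⟨g, h1, h2, h3⟩ := glue (fun m _ => w m (ρ m)) (fun m _ => w m (ρ m)⁻¹)
    (fun m c => hw0 _ _) (fun m c => hw0 _ _)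
    (fun m c x hx => ⟨_, hwC m _ c x hx, (hinv m (ρ m)).symm⟩)
    (fun m c x hx => ⟨_, hwC m _ c x hx, by
      have := (hinv m (ρ m)⁻¹)
      rw [inv_inv] at this
      exact this.symm⟩)
  refine ⟨g, ⟨h1, h2, fun m c x hx => ?_⟩, fun m c x hx hc => ?_⟩
  · rw [h3 m c x hx]; exact hwC m _ c x hx
  · rw [h3 m c x hx]
    apply Subtype.ext
    funext i
    rw [hw]
    by_cases h : i = m
    · rw [if_pos h, h, hx.2.1]; simp [hc]
    · rw [if_neg h]

/-- elements supported on top values in `A` -/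
def KA (A : Set ℕ) (g : GG) : Prop :=
  ht g = 0 ∧ (∀ x, inB x → act g x = x) ∧ ∀ m c x, Cc m c x → c ∉ A → act g x = x

lemma KA.mono {A B : Set ℕ} (h : A ⊆ B) {g : GG} (hg : KA A g) : KA B g :=
  ⟨hg.1, hg.2.1, fun m c x hx hc => hg.2.2 m c x hx (fun h' => hc (h h'))⟩

lemma labels {A : Set ℕ} (hA : A.Nonempty) (hAc : Aᶜ.Infinite) :
    ∃ (lab : ℕ → ℤ × ℤ) (s1 s3 : Equiv.Perm ℕ), (∀ c, lab (s1 c) = lab c + (1, 0)) ∧
      (∀ c, lab (s3 c) = lab c + (0, 1)) ∧ (∀ c, lab c = 0 ↔ c ∈ A) := by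
  classical
  obtain ⟨a0, ha0⟩ := hA
  have : Nonempty A := ⟨⟨a0, ha0⟩⟩
  have : Infinite (Aᶜ : Set ℕ) := hAc.to_subtype
  have : Infinite {p : (ℤ × ℤ) × A // p.1 ≠ 0} := by
    refine Infinite.of_injective (fun n : ℕ => (⟨(((n : ℤ) + 1, 0), ⟨a0, ha0⟩), by
      intro h
      have := congrArg Prod.fst h
      simp at this
      omega⟩ : {p : (ℤ × ℤ) × A // p.1 ≠ 0})) ?_
    intro n m h
    simp at h
    exact h
  obtain ⟨e⟩ := nonempty_equiv_of_countable (α := {p : (ℤ × ℤ) × A // p.1 ≠ 0}) (β := (Aᶜ : Set ℕ))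
  let f : (ℤ × ℤ) × A → ℕ := fun p => if h : p.1 = 0 then p.2.1 else (e ⟨p, h⟩).1
  have hf0 : ∀ p, (f p ∈ A ↔ p.1 = 0) := by
    intro p
    by_cases h : p.1 = 0
    · simp [f, h]
    · simp only [f, h, iff_false, dite_false]
      exact (e ⟨p, h⟩).2
  have hf : Function.Bijective f := by
    constructor
    · intro p q hpq
      by_cases hp : p.1 = 0
      · have hq : q.1 = 0 := (hf0 q).mp (hpq ▸ (hf0 p).mpr hp)
        have h1 : f p = p.2.1 := by simp [f, hp]
        have h2 : f q = q.2.1 := by simp [f, hq]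
        rw [h1, h2] at hpq
        exact Prod.ext (hp.trans hq.symm) (Subtype.ext hpq)
      · have hq : ¬ q.1 = 0 := fun hq => hp ((hf0 p).mp (hpq ▸ (hf0 q).mpr hq))
        have h1 : f p = (e ⟨p, hp⟩).1 := by simp [f, hp]
        have h2 : f q = (e ⟨q, hq⟩).1 := by simp [f, hq]
        rw [h1, h2] at hpq
        have := e.injective (Subtype.ext hpq)
        simpa using this
    · intro c
      by_cases hc : c ∈ A
      · exact ⟨(0, ⟨c, hc⟩), by simp [f]⟩
      · obtain ⟨⟨p, hp⟩, hpe⟩ := e.surjective ⟨c, hc⟩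
        refine ⟨p, ?_⟩
        simp only [f, hp, dite_false]
        rw [hpe]
  let F : (ℤ × ℤ) × A ≃ ℕ := Equiv.ofBijective f hf
  let T : ℤ × ℤ → Equiv.Perm ((ℤ × ℤ) × A) := fun d =>
    Equiv.prodCongr (Equiv.addRight d) (Equiv.refl _)
  refine ⟨fun c => (F.symm c).1, F.symm.trans ((T (1, 0)).trans F), F.symm.trans ((T (0, 1)).trans F),
    fun c => ?_, fun c => ?_, fun c => ?_⟩
  · simp [T]
  · simp [T]
  · have := hf0 (F.symm c)
    have e1 : f (F.symm c) = c := F.apply_symm_apply c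
    rw [e1] at this
    exact this.symm

open Classical in
/-- region -/
noncomputable def reg (lab : ℕ → ℤ × ℤ) (x : Sq) : Option (ℤ × ℤ) :=
  if h : ∃ p : ℤ × ℕ, Cc p.1 p.2 x then some (lab h.choose.2) else none

lemma reg_Cc (lab : ℕ → ℤ × ℤ) {m : ℤ} {c : ℕ} {x : Sq} (h : Cc m c x) : reg lab x = some (lab c) := by
  have h' : ∃ p : ℤ × ℕ, Cc p.1 p.2 x := ⟨(m, c), h⟩
  unfold reg
  rw [dif_pos h']
  obtain ⟨h1, h2⟩ := Cc_uniq h h'.choose_spec
  rw [← h2]

lemma reg_inB (lab : ℕ → ℤ × ℤ) {x : Sq} (h : inB x) : reg lab x = none := by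
  unfold reg
  rw [dif_neg]
  rintro ⟨p, hp⟩
  exact not_inB_of_Cc hp h

lemma reg_shift_inv {lab : ℕ → ℤ × ℤ} {g : GG} {d : ℤ × ℤ}
    (h : ∀ x, reg lab (act g x) = (reg lab x).map (· + d)) :
    ∀ x, reg lab (act g⁻¹ x) = (reg lab x).map (· + (-d)) := by
  intro x
  have := h (act g⁻¹ x)
  rw [act_act_inv] at this
  rw [this]
  cases reg lab (act g⁻¹ x) <;> simp

lemma reg_shift_pow {lab : ℕ → ℤ × ℤ} {g : GG} {d : ℤ × ℤ}
    (h : ∀ x, reg lab (act g x) = (reg lab x).map (· + d)) (n : ℤ) :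
    ∀ x, reg lab (act (g ^ n) x) = (reg lab x).map (· + n • d) := by
  have hnat : ∀ n : ℕ, ∀ x, reg lab (act (g ^ n) x) = (reg lab x).map (· + (n : ℤ) • d) := by
    intro n
    induction n with
    | zero => intro x; simp [act_one]
    | succ n ih =>
      intro x
      rw [pow_succ, act_mul, ih, h]
      cases reg lab x with
      | none => rfl
      | some r =>
        simp only [Option.map_some, Option.some.injEq]
        push_cast
        rw [add_smul, one_smul, add_assoc, add_comm d]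
  cases n with
  | ofNat n => intro x; simpa using hnat n x
  | negSucc n =>
    intro x
    rw [zpow_negSucc, reg_shift_inv (hnat (n + 1)) x]
    congr 1
    funext r
    rw [Int.negSucc_eq, neg_smul]
    push_cast
    rfl

/-- coding of sequences -/
lemma coding {A : Set ℕ} (hA : A.Nonempty) (hAc : Aᶜ.Infinite) :
    ∃ s y : GG, ∀ g : ℕ → GG, (∀ n, KA A (g n)) → ∃ P : GG, ∀ n : ℕ,
      g n = (s ^ (-(n : ℤ)) * P * s ^ (n : ℤ)) * y * (s ^ (-(n : ℤ)) * P * s ^ (n : ℤ))⁻¹ * y⁻¹ := by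
  classical
  obtain ⟨lab, s1, s3, hs1, hs3, hlab⟩ := labels hA hAc
  obtain ⟨S1, hS1, -⟩ := Phi_exists (fun _ => s1)
  obtain ⟨S3, hS3, -⟩ := Phi_exists (fun _ => s3)
  have rS1 : ∀ x, reg lab (act S1 x) = (reg lab x).map (· + (1, 0)) := by
    intro x
    rcases inB_or x with h | ⟨m, c, h⟩
    · rw [hS1.2.1 x h, reg_inB lab h]; rfl
    · rw [reg_Cc lab (hS1.2.2 m c x h), reg_Cc lab h, hs1]; rfl
  have rS3 : ∀ x, reg lab (act S3 x) = (reg lab x).map (· + (0, 1)) := by
    intro x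
    rcases inB_or x with h | ⟨m, c, h⟩
    · rw [hS3.2.1 x h, reg_inB lab h]; rfl
    · rw [reg_Cc lab (hS3.2.2 m c x h), reg_Cc lab h, hs3]; rfl
  have zS1 : act S1 zz = zz := hS1.2.1 zz inB_zz
  have zS3 : act S3 zz = zz := hS3.2.1 zz inB_zz
  -- powers
  have hpow : ∀ S : GG, ht S = 0 → (∀ x, inB x → act S x = x) → ∀ n : ℤ, ht (S ^ n) = 0 ∧
      ∀ x, inB x → act (S ^ n) x = x := by
    intro S hS hf n
    have hn : ∀ n : ℕ, ht (S ^ n) = 0 ∧ ∀ x, inB x → act (S ^ n) x = x := by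
      intro n
      induction n with
      | zero => exact ⟨by simp [ht_one], fun x _ => by rw [pow_zero]; rfl⟩
      | succ n ih =>
        refine ⟨by rw [pow_succ, ht_mul, ih.1, hS]; rfl, fun x hx => ?_⟩
        rw [pow_succ, act_mul, hf x hx, ih.2 x hx]
    cases n with
    | ofNat n => simpa using hn n
    | negSucc n =>
      rw [zpow_negSucc]
      exact ⟨by rw [ht_inv, (hn (n+1)).1]; rfl, fix_inv (hn (n+1)).2⟩
  have hp1 := hpow S1 hS1.1 hS1.2.1
  have hp3 := hpow S3 hS3.1 hS3.2.1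
  have rp1 := reg_shift_pow rS1
  have rp3 := reg_shift_pow rS3
  -- the element y
  have hy : ∃ y : GG, ht y = 0 ∧ (∀ x, inB x → act y x = x) ∧
      (∀ x k, reg lab x = some (0, k) → act y x = act S3 x) ∧
      (∀ x i k, reg lab x = some (i, k) → i ≠ 0 → act y x = x) := by
    obtain ⟨y, h1, h2, h3⟩ := glue (fun _ c => if (lab c).1 = 0 then S3 else 1)
      (fun _ c => if (lab c).1 = 0 then S3⁻¹ else 1)
      (by intro m c; split_ifs; exacts [hS3.1, ht_one])
      (by intro m c; split_ifs; exacts [by rw [ht_inv, hS3.1]; rfl, ht_one])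
      (by
        intro m c x hx
        by_cases hc : (lab c).1 = 0
        · rw [if_pos hc]
          refine ⟨s3 c, hS3.2.2 m c x hx, ?_⟩
          rw [if_pos]
          rw [hs3]; simpa using hc
        · rw [if_neg hc]
          exact ⟨c, hx, by rw [if_neg hc, inv_one]⟩)
      (by
        intro m c x hx
        by_cases hc : (lab c).1 = 0
        · rw [if_pos hc]
          refine ⟨s3⁻¹ c, hS3.inv.2.2 m c x hx, ?_⟩
          rw [if_pos, inv_inv]
          have := hs3 (s3⁻¹ c)
          have e3 : s3 (s3⁻¹ c) = c := by simp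
          rw [e3] at this
          rw [this] at hc
          simpa using hc
        · rw [if_neg hc]
          exact ⟨c, hx, by rw [if_neg hc, inv_one]⟩)
    refine ⟨y, h1, h2, fun x k hx => ?_, fun x i k hx hi => ?_⟩
    · rcases inB_or x with h | ⟨m, c, h⟩
      · rw [reg_inB lab h] at hx; exact absurd hx (by simp)
      · rw [h3 m c x h]
        rw [reg_Cc lab h] at hx
        simp only [Option.some.injEq] at hx
        rw [if_pos (by rw [hx])]
    · rcases inB_or x with h | ⟨m, c, h⟩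
      · exact h2 x h
      · rw [h3 m c x h]
        rw [reg_Cc lab h] at hx
        simp only [Option.some.injEq] at hx
        rw [if_neg (by rw [hx]; exact hi)]
        rfl
  obtain ⟨y, hy0, hyB, hy1, hy2⟩ := hy
  refine ⟨S1, y, fun g hg => ?_⟩
  -- facts about g n
  have gfix : ∀ n x, reg lab x ≠ some 0 → act (g n) x = x := by
    intro n x hx
    rcases inB_or x with h | ⟨m, c, h⟩
    · exact (hg n).2.1 x h
    · refine (hg n).2.2 m c x h ?_
      rw [reg_Cc lab h] at hx
      rw [← hlab]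
      simpa using hx
  have greg : ∀ n x, reg lab (act (g n) x) = reg lab x := by
    intro n x
    by_cases hx : reg lab x = some 0
    · by_contra hne
      have h1 : reg lab (act (g n) x) ≠ some 0 := by rw [← hx]; exact hne
      have h2 := gfix n _ h1
      have h3 : act (g n) x = x := by
        have := congrArg (act (g n)⁻¹) h2
        rw [act_inv_act, act_inv_act] at this
        exact this
      rw [h3] at hne
      exact hne rfl
    · rw [gfix n x hx]
  have gz : ∀ n, act (g n) zz = zz := fun n => (hg n).2.1 zz inB_zz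
  -- the pieces
  let W : ℤ → ℤ → GG := fun i k => S1 ^ i * S3 ^ k * g i.toNat * S3 ^ (-k) * S1 ^ (-i)
  have hW0 : ∀ i k, ht (W i k) = 0 := by
    intro i k
    simp only [W, ht_mul, (hp1 _).1, (hp3 _).1, (hg _).1]
    rfl
  have hWz : ∀ i k, act (W i k) zz = zz := by
    intro i k
    simp only [W, act_mul]
    rw [(hp1 _).2 zz inB_zz, (hp3 _).2 zz inB_zz, gz, (hp3 _).2 zz inB_zz, (hp1 _).2 zz inB_zz]
  have hWr : ∀ i k x, reg lab (act (W i k) x) = reg lab x := by
    intro i k x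
    simp only [W, act_mul]
    rw [rp1, rp3, greg, rp3, rp1]
    cases reg lab x with
    | none => rfl
    | some r =>
      obtain ⟨a, b⟩ := r
      simp
  have hWi0 : ∀ i k, ht (W i k)⁻¹ = 0 := fun i k => by rw [ht_inv, hW0]; rfl
  have hWiz : ∀ i k, act (W i k)⁻¹ zz = zz := by
    intro i k
    conv_lhs => rw [← hWz i k]
    exact act_inv_act _ _
  have hWir : ∀ i k x, reg lab (act (W i k)⁻¹ x) = reg lab x := by
    intro i k x
    have := hWr i k (act (W i k)⁻¹ x)
    rw [act_act_inv] at this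
    exact this.symm
  obtain ⟨P, hP0, hPB, hP⟩ := glue
    (fun _ c => if 0 ≤ (lab c).1 ∧ 0 ≤ (lab c).2 then W (lab c).1 (lab c).2 else 1)
    (fun _ c => if 0 ≤ (lab c).1 ∧ 0 ≤ (lab c).2 then (W (lab c).1 (lab c).2)⁻¹ else 1)
    (by intro m c; split_ifs; exacts [hW0 _ _, ht_one])
    (by intro m c; split_ifs; exacts [hWi0 _ _, ht_one])
    (by
      intro m c x hx
      by_cases hc : 0 ≤ (lab c).1 ∧ 0 ≤ (lab c).2
      · rw [if_pos hc]
        obtain ⟨c', hc'⟩ := top_pres (hW0 (lab c).1 (lab c).2) (hWz (lab c).1 (lab c).2) hx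
        have h1 := hWr (lab c).1 (lab c).2 x
        rw [reg_Cc lab hc', reg_Cc lab hx] at h1
        simp only [Option.some.injEq] at h1
        refine ⟨c', hc', ?_⟩
        rw [h1, if_pos hc]
      · rw [if_neg hc]
        exact ⟨c, hx, by rw [if_neg hc, inv_one]⟩)
    (by
      intro m c x hx
      by_cases hc : 0 ≤ (lab c).1 ∧ 0 ≤ (lab c).2
      · rw [if_pos hc]
        obtain ⟨c', hc'⟩ := top_pres (hWi0 (lab c).1 (lab c).2) (hWiz (lab c).1 (lab c).2) hx
        have h1 := hWir (lab c).1 (lab c).2 x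
        rw [reg_Cc lab hc', reg_Cc lab hx] at h1
        simp only [Option.some.injEq] at h1
        refine ⟨c', hc', ?_⟩
        rw [h1, if_pos hc, inv_inv]
      · rw [if_neg hc]
        exact ⟨c, hx, by rw [if_neg hc, inv_one]⟩)
  have hP1 : ∀ x i k, reg lab x = some (i, k) → 0 ≤ i → 0 ≤ k → act P x = act (W i k) x := by
    intro x i k hx hi hk
    rcases inB_or x with h | ⟨m, c, h⟩
    · rw [reg_inB lab h] at hx; exact absurd hx (by simp)
    · rw [hP m c x h]
      rw [reg_Cc lab h] at hx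
      simp only [Option.some.injEq] at hx
      rw [if_pos (by rw [hx]; exact ⟨hi, hk⟩), hx]
  have hP2 : ∀ x i k, reg lab x = some (i, k) → ¬ (0 ≤ i ∧ 0 ≤ k) → act P x = x := by
    intro x i k hx hik
    rcases inB_or x with h | ⟨m, c, h⟩
    · exact hPB x h
    · rw [hP m c x h]
      rw [reg_Cc lab h] at hx
      simp only [Option.some.injEq] at hx
      rw [if_neg (by rw [hx]; exact hik)]
      rfl
  have hPr : ∀ x, reg lab (act P x) = reg lab x := by
    intro x
    rcases hx : reg lab x with _ | ⟨i, k⟩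
    · rcases inB_or x with h | ⟨m, c, h⟩
      · rw [hPB x h, hx]
      · rw [reg_Cc lab h] at hx; exact absurd hx (by simp)
    · by_cases hik : 0 ≤ i ∧ 0 ≤ k
      · rw [hP1 x i k hx hik.1 hik.2, hWr, hx]
      · rw [hP2 x i k hx hik, hx]
  refine ⟨P, fun n => ?_⟩
  set Q := S1 ^ (-(n : ℤ)) * P * S1 ^ (n : ℤ) with hQ
  have hQ0 : ht Q = 0 := by
    rw [hQ, ht_mul, ht_mul, (hp1 _).1, (hp1 _).1, hP0]; rfl
  have hQB : ∀ x, inB x → act Q x = x := by
    intro x hx
    rw [hQ, act_mul, act_mul, (hp1 _).2 x hx, hPB x hx, (hp1 _).2 x hx]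
  have hQr : ∀ x, reg lab (act Q x) = reg lab x := by
    intro x
    rw [hQ, act_mul, act_mul, rp1, hPr, rp1]
    cases reg lab x with
    | none => rfl
    | some r =>
      obtain ⟨a, b⟩ := r
      simp
  have hQir : ∀ x, reg lab (act Q⁻¹ x) = reg lab x := by
    intro x
    have := hQr (act Q⁻¹ x)
    rw [act_act_inv] at this
    exact this.symm
  have hQ1 : ∀ x k, reg lab x = some (0, k) → 0 ≤ k →
      act Q x = act (S3 ^ k) (act (g n) (act (S3 ^ (-k)) x)) := by
    intro x k hx hk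
    rw [hQ, act_mul, act_mul]
    have h1 : reg lab (act (S1 ^ (n : ℤ)) x) = some ((n : ℤ), k) := by
      rw [rp1, hx]; simp
    rw [hP1 _ _ _ h1 (by omega) hk]
    simp only [W, Int.toNat_natCast, ← act_mul]
    congr 1
    rw [zpow_neg, zpow_neg]; group
  have hQ2 : ∀ x k, reg lab x = some (0, k) → k < 0 → act Q x = x := by
    intro x k hx hk
    rw [hQ, act_mul, act_mul]
    have h1 : reg lab (act (S1 ^ (n : ℤ)) x) = some ((n : ℤ), k) := by
      rw [rp1, hx]; simp
    rw [hP2 _ _ _ h1 (by omega), ← act_mul, ← zpow_add]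
    simp [act_one]
  have hyi1 : ∀ x k, reg lab x = some (0, k) → act y⁻¹ x = act S3⁻¹ x := by
    intro x k hx
    have h1 : reg lab (act S3⁻¹ x) = some (0, k - 1) := by
      rw [reg_shift_inv rS3, hx]; simp; ring
    have h2 := hy1 _ _ h1
    rw [act_act_inv] at h2
    conv_lhs => rw [← h2]
    exact act_inv_act _ _
  have hyi2 : ∀ x i k, reg lab x = some (i, k) → i ≠ 0 → act y⁻¹ x = x := by
    intro x i k hx hi
    conv_lhs => rw [← hy2 x i k hx hi]
    exact act_inv_act _ _
  apply GG_ext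
  · rw [(hg n).1, ht_mul, ht_mul, ht_mul, ht_inv, ht_inv, hQ0, hy0]; rfl
  · intro x
    rw [act_mul, act_mul, act_mul]
    rcases hx : reg lab x with _ | ⟨i, k⟩
    · rcases inB_or x with h | ⟨m, c, h⟩
      · rw [fix_inv hyB x h, fix_inv hQB x h, hyB x h, hQB x h, (hg n).2.1 x h]
      · rw [reg_Cc lab h] at hx; exact absurd hx (by simp)
    · by_cases hi : i = 0
      · subst hi
        rw [hyi1 x k hx]
        have h1 : reg lab (act S3⁻¹ x) = some (0, k - 1) := by
          rw [reg_shift_inv rS3, hx]; simp; ring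
        have h1' : reg lab (act Q⁻¹ (act S3⁻¹ x)) = some (0, k - 1) := by rw [hQir, h1]
        rw [hy1 _ _ h1']
        rcases lt_trichotomy k 0 with hk | hk | hk
        · -- k < 0
          have h2 := hQ2 _ _ h1 (by omega)
          have h3 : act Q⁻¹ (act S3⁻¹ x) = act S3⁻¹ x := by
            conv_lhs => rw [← h2]
            exact act_inv_act _ _
          rw [h3, act_act_inv, hQ2 x k hx hk]
          apply gfix
          rw [hx]
          intro h
          simp only [Option.some.injEq] at h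
          have := congrArg Prod.snd h
          simp at this
          omega
        · subst hk
          have h2 := hQ2 _ _ h1 (by omega)
          have h3 : act Q⁻¹ (act S3⁻¹ x) = act S3⁻¹ x := by
            conv_lhs => rw [← h2]
            exact act_inv_act _ _
          rw [h3, act_act_inv, hQ1 x 0 hx le_rfl]
          simp [act_one]
        · -- k > 0
          set z := act Q⁻¹ (act S3⁻¹ x) with hz
          have h4 : act Q z = act S3⁻¹ x := by rw [hz, act_act_inv]
          rw [hQ1 z (k - 1) h1' (by omega)] at h4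
          have h5 : reg lab (act S3 z) = some (0, k) := by
            rw [rS3, h1']; simp
          rw [hQ1 _ k h5 hk.le]
          have h6 : act (S3 ^ (-k)) (act S3 z) = act (S3 ^ (-(k - 1))) z := by
            rw [← act_mul, ← zpow_add_one]; congr 2; ring
          rw [h6]
          have h7 : act (S3 ^ k) (act (g n) (act (S3 ^ (-(k - 1))) z)) = act S3 (act (S3 ^ (k - 1)) (act (g n) (act (S3 ^ (-(k - 1))) z))) := by
            rw [← act_mul S3, ← zpow_one_add]; congr 2; ring
          rw [h7, h4, act_act_inv]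
          apply gfix
          rw [hx]
          intro h
          simp only [Option.some.injEq] at h
          have := congrArg Prod.snd h
          simp at this
          omega
      · rw [hyi2 x i k hx hi]
        have h1 : reg lab (act Q⁻¹ x) = some (i, k) := by rw [hQir, hx]
        rw [hy2 _ i k h1 hi, act_act_inv]
        apply gfix
        rw [hx]
        intro h
        simp only [Option.some.injEq] at h
        have := congrArg Prod.fst h
        simp at this
        omega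

section bounded
variable {ℓ : GG → ℕ} (hm : ∀ a b, ℓ (a * b) ≤ ℓ a + ℓ b) (hi : ∀ a, ℓ a⁻¹ = ℓ a)
include hm hi

lemma bdd_KA {A : Set ℕ} (hA : A.Nonempty) (hAc : Aᶜ.Infinite) : ∃ C : ℕ, ∀ g, KA A g → ℓ g ≤ C := by
  by_contra hcon
  push Not at hcon
  obtain ⟨s, y, h⟩ := coding hA hAc
  choose g hg hgl using fun n : ℕ => hcon (n * n)
  obtain ⟨P, hP⟩ := h g hg
  have hpow : ∀ n : ℕ, ℓ (s ^ n) ≤ n * ℓ s + ℓ 1 := by
    intro n
    induction n with
    | zero => simp
    | succ n ih =>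
      rw [pow_succ]
      have := hm (s ^ n) s
      have e : (n + 1) * ℓ s = n * ℓ s + ℓ s := by ring
      omega
  have hb : ∀ n : ℕ, ℓ (g n) ≤ 4 * (n * ℓ s) + 4 * ℓ 1 + 2 * ℓ P + 2 * ℓ y := by
    intro n
    have e := hP n
    set Q := s ^ (-(n : ℤ)) * P * s ^ (n : ℤ) with hQ
    have h1 : ℓ Q ≤ 2 * (n * ℓ s + ℓ 1) + ℓ P := by
      have a1 := hm (s ^ (-(n : ℤ)) * P) (s ^ (n : ℤ))
      have a2 := hm (s ^ (-(n : ℤ))) P
      have a3 := hpow n
      rw [zpow_neg, zpow_natCast] at a1 a2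
      have a4 := hi (s ^ n)
      rw [hQ, zpow_neg, zpow_natCast]
      omega
    have a1 := hm (Q * y * Q⁻¹) y⁻¹
    have a2 := hm (Q * y) Q⁻¹
    have a3 := hm Q y
    rw [hi] at a1 a2
    rw [← e] at a1
    omega
  set N := 4 * ℓ s + 4 * ℓ 1 + 2 * ℓ P + 2 * ℓ y + 1 with hN
  have h1 := hb N
  have h2 := hgl N
  have h3 : 4 * (N * ℓ s) + 4 * ℓ 1 + 2 * ℓ P + 2 * ℓ y < N * N := by
    have : N * N = N * (4 * ℓ s) + N * (4 * ℓ 1 + 2 * ℓ P + 2 * ℓ y) + N := by
      conv_lhs => rhs; rw [hN]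
      ring
    have h4 : 4 * ℓ 1 + 2 * ℓ P + 2 * ℓ y ≤ N * (4 * ℓ 1 + 2 * ℓ P + 2 * ℓ y) := by
      apply Nat.le_mul_of_pos_left
      omega
    have h5 : N * (4 * ℓ s) = 4 * (N * ℓ s) := by ring
    omega
  omega

end bounded

end Q46HQ
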