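import Pool.Agent.Q46.HQ.Bdd

set_option autoImplicit false

namespace Q46HQ

lemma ext_perm {Δ P Q : Set ℕ} (hP : P ⊆ Δ) (hQ : Q ⊆ Δ) (hP' : (Δ \ P).Infinite)
    (hQ' : (Δ \ Q).Infinite) (e : P ≃ Q) :
    ∃ β : Equiv.Perm ℕ, (∀ x, x ∉ Δ → β x = x) ∧ ∀ p : P, β p = e p := by
  classical
  let D := {x : ℕ // x ∈ Δ}
  let E1 : {x : D // x.1 ∈ P} ≃ {x : D // x.1 ∈ Q} :=
    { toFun := fun x => ⟨⟨(e ⟨x.1.1, x.2⟩).1, hQ (e ⟨x.1.1, x.2⟩).2⟩, (e ⟨x.1.1, x.2⟩).2⟩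
      invFun := fun x => ⟨⟨(e.symm ⟨x.1.1, x.2⟩).1, hP (e.symm ⟨x.1.1, x.2⟩).2⟩, (e.symm ⟨x.1.1, x.2⟩).2⟩
      left_inv := fun x => by simp
      right_inv := fun x => by simp }
  have inf : ∀ R : Set ℕ, (Δ \ R).Infinite → Infinite {x : D // ¬ x.1 ∈ R} := by
    intro R hR
    have := hR.to_subtype
    exact Infinite.of_injective (fun x : (Δ \ R : Set ℕ) => (⟨⟨x.1, x.2.1⟩, x.2.2⟩ : {x : D // ¬ x.1 ∈ R}))
      (fun x y h => by
        have h1 := congrArg (fun z : {x : D // ¬ x.1 ∈ R} => z.1.1) h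
        exact Subtype.ext h1)
  have := inf P hP'
  have := inf Q hQ'
  obtain ⟨E2⟩ := nonempty_equiv_of_countable (α := {x : D // ¬ x.1 ∈ P}) (β := {x : D // ¬ x.1 ∈ Q})
  let ζ : Equiv.Perm D := Equiv.subtypeCongr E1 E2
  refine ⟨Equiv.Perm.ofSubtype ζ, fun x hx => Equiv.Perm.ofSubtype_apply_of_not_mem ζ hx, fun p => ?_⟩
  rw [Equiv.Perm.ofSubtype_apply_of_mem ζ (hP p.2)]
  have : ζ ⟨p.1, hP p.2⟩ = (E1 ⟨⟨p.1, hP p.2⟩, p.2⟩).1 := by
    simp only [ζ, Equiv.subtypeCongr, Equiv.trans_apply]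
    simp [p.2]
  rw [this]
  rfl

/-- exchange of the residue classes 0 and 2 modulo 3 -/
def kap : Equiv.Perm ℕ := Function.Involutive.toPerm
  (fun x => if x % 3 = 0 then x + 2 else if x % 3 = 2 then x - 2 else x) (by
    intro x
    dsimp only
    split_ifs <;> omega)

lemma kap_apply (x : ℕ) : kap x = if x % 3 = 0 then x + 2 else if x % 3 = 2 then x - 2 else x := rfl

lemma perm_decomp_aux (σ : Equiv.Perm ℕ) (hT : {x : ℕ | x % 3 ≠ 2 ∧ σ x % 3 ≠ 2}.Infinite) :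
    ∃ b c d : Equiv.Perm ℕ, (∀ x, x % 3 = 2 → b x = x) ∧ (∀ x, x % 3 = 0 → c x = x) ∧
      (∀ x, x % 3 = 2 → d x = x) ∧ σ = b * c * d := by
  classical
  set T := {x : ℕ | x % 3 ≠ 2 ∧ σ x % 3 ≠ 2} with hTdef
  have := hT.to_subtype
  let f : ℕ ↪ T := Infinite.natEmbedding T
  let Q : Set ℕ := Set.range (fun n : ℕ => (f (2 * n)).1)
  let Q' : Set ℕ := Set.range (fun n : ℕ => (f (2 * n + 1)).1)
  have hQinf : Q.Infinite := Set.infinite_range_of_injective (fun n m h => by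
    have := f.injective (Subtype.ext h); omega)
  have hQ'inf : Q'.Infinite := Set.infinite_range_of_injective (fun n m h => by
    have := f.injective (Subtype.ext h); omega)
  have hdisj : ∀ x, x ∈ Q' → x ∉ Q := by
    rintro x ⟨n, rfl⟩ ⟨m, hm⟩
    have := f.injective (Subtype.ext hm)
    omega
  have hQT : ∀ x ∈ Q, x ∈ T := by rintro x ⟨n, rfl⟩; exact (f (2 * n)).2
  have hQ'T : ∀ x ∈ Q', x ∈ T := by rintro x ⟨n, rfl⟩; exact (f (2 * n + 1)).2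
  let Δ : Set ℕ := {x | x % 3 ≠ 2}
  let P : Set ℕ := {x | x % 3 = 0}
  have hPΔ : P ⊆ Δ := fun x (hx : x % 3 = 0) => show x % 3 ≠ 2 by omega
  have hPinf : P.Infinite := by
    apply Set.infinite_of_injective_forall_mem (f := fun n : ℕ => 3 * n)
    · intro n m h; dsimp only at h; omega
    · intro n; change (3 * n) % 3 = 0; omega
  have hΔP : (Δ \ P).Infinite := by
    apply Set.infinite_of_injective_forall_mem (f := fun n : ℕ => 3 * n + 1)
    · intro n m h; dsimp only at h; omega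
    · intro n
      refine ⟨?_, ?_⟩
      · change (3 * n + 1) % 3 ≠ 2; omega
      · change ¬ ((3 * n + 1) % 3 = 0); omega
  have hΔQ : (Δ \ Q).Infinite := hQ'inf.mono (fun x hx => ⟨(hQ'T x hx).1, hdisj x hx⟩)
  have hσQ : σ '' Q ⊆ Δ := by rintro _ ⟨x, hx, rfl⟩; exact (hQT x hx).2
  have hΔσQ : (Δ \ (σ '' Q)).Infinite := by
    refine (hQ'inf.image (σ.injective.injOn (s := Q'))).mono ?_
    rintro _ ⟨x, hx, rfl⟩
    refine ⟨(hQ'T x hx).2, ?_⟩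
    rintro ⟨y, hy, hyx⟩
    exact hdisj x hx (σ.injective hyx ▸ hy)
  have := hPinf.to_subtype
  have := hQinf.to_subtype
  obtain ⟨e⟩ := nonempty_equiv_of_countable (α := P) (β := Q)
  obtain ⟨β, hβ1, hβ2⟩ := ext_perm hPΔ (fun x hx => (hQT x hx).1) hΔP hΔQ e
  obtain ⟨γ, hγ1, hγ2⟩ := ext_perm hPΔ hσQ hΔP hΔσQ (e.trans (σ.image Q))
  refine ⟨γ, γ⁻¹ * σ * β, β⁻¹, ?_, ?_, ?_, by group⟩
  · intro x hx
    exact hγ1 x (by change ¬ (x % 3 ≠ 2); omega)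
  · intro x hx
    have h1 := hβ2 ⟨x, hx⟩
    have h2 := hγ2 ⟨x, hx⟩
    have h3 : γ x = σ (β x) := by
      change γ x = _ at h2
      change β x = _ at h1
      rw [h2, h1]; rfl
    rw [Equiv.Perm.mul_apply, Equiv.Perm.mul_apply, ← h3]
    simp
  · intro x hx
    have h1 := hβ1 x (by change ¬ (x % 3 ≠ 2); omega)
    conv_lhs => rw [← h1]
    simp

lemma perm_decomp (σ : Equiv.Perm ℕ) :
    ∃ a b c d : Equiv.Perm ℕ, (∀ x, x % 3 = 1 → a x = x) ∧ (∀ x, x % 3 = 2 → b x = x) ∧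
      (∀ x, x % 3 = 0 → c x = x) ∧ (∀ x, x % 3 = 2 → d x = x) ∧ σ = a * b * c * d := by
  by_cases hT : {x : ℕ | x % 3 ≠ 2 ∧ σ x % 3 ≠ 2}.Infinite
  · obtain ⟨b, c, d, h1, h2, h3, h4⟩ := perm_decomp_aux σ hT
    exact ⟨1, b, c, d, fun x _ => rfl, h1, h2, h3, by rw [h4, one_mul]⟩
  · have hinf : {x : ℕ | x % 3 ≠ 2}.Infinite := by
      apply Set.infinite_of_injective_forall_mem (f := fun n : ℕ => 3 * n)
      · intro n m h; dsimp only at h; omega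
      · intro n; change (3 * n) % 3 ≠ 2; omega
    have hT' : {x : ℕ | x % 3 ≠ 2 ∧ (kap * σ) x % 3 ≠ 2}.Infinite := by
      have hsub : {x : ℕ | x % 3 ≠ 2} \ {x : ℕ | x % 3 ≠ 2 ∧ σ x % 3 ≠ 2} ⊆
          {x : ℕ | x % 3 ≠ 2 ∧ (kap * σ) x % 3 ≠ 2} := by
        rintro x ⟨h1, h2⟩
        change x % 3 ≠ 2 at h1
        have h3 : σ x % 3 = 2 := by
          by_contra h
          exact h2 ⟨h1, h⟩
        refine ⟨h1, ?_⟩
        rw [Equiv.Perm.mul_apply, kap_apply, if_neg (by omega), if_pos h3]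
        omega
      exact (hinf.sdiff (Set.not_infinite.mp hT)).mono hsub
    obtain ⟨b, c, d, h1, h2, h3, h4⟩ := perm_decomp_aux (kap * σ) hT'
    refine ⟨kap⁻¹, b, c, d, fun x hx => ?_, h1, h2, h3, ?_⟩
    · have : kap x = x := by rw [kap_apply, if_neg (by omega), if_neg (by omega)]
      conv_lhs => rw [← this]
      simp
    · rw [mul_assoc, mul_assoc, ← mul_assoc b, ← h4]; group

lemma swap_coord (m : ℤ) : ∃ v : GG, ht v = 0 ∧ ∀ x i, (act v x).1 i =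
    if i = m then Equiv.swap none (some 0) (x.1 i) else x.1 i := coord_exists m _

theorem bdd_K {ℓ : GG → ℕ} (hm : ∀ a b, ℓ (a * b) ≤ ℓ a + ℓ b) (hi : ∀ a, ℓ a⁻¹ = ℓ a) :
    ∃ C : ℕ, ∀ k ∈ KK, ℓ k ≤ C := by
  classical
  have inf : ∀ j : ℕ, j < 3 → ({x : ℕ | x % 3 ≠ j}ᶜ).Infinite := by
    intro j hj
    apply Set.infinite_of_injective_forall_mem (f := fun n : ℕ => 3 * n + j)
    · intro n m h; dsimp only at h; omega
    · intro n; change ¬ ((3 * n + j) % 3 ≠ j); omega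
  obtain ⟨C0, hC0⟩ := bdd_KA hm hi (A := {x : ℕ | x % 3 ≠ 0}) ⟨1, by decide⟩ (inf 0 (by norm_num))
  obtain ⟨C1, hC1⟩ := bdd_KA hm hi (A := {x : ℕ | x % 3 ≠ 1}) ⟨0, by decide⟩ (inf 1 (by norm_num))
  obtain ⟨C2, hC2⟩ := bdd_KA hm hi (A := {x : ℕ | x % 3 ≠ 2}) ⟨0, by decide⟩ (inf 2 (by norm_num))
  obtain ⟨v, hv0, hv⟩ := swap_coord 0
  refine ⟨2 * ℓ v + C2 + (C1 + C2 + C0 + C2) + (C2 + C0), fun k hk => ?_⟩
  obtain ⟨g1, h1, h2, h3⟩ := restrict hk.1 0 zz hk.2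
  have inB_iff : ∀ x, inB x ↔ E 0 x zz := fun x => Iff.rfl
  -- the inner part
  have hvC : ∀ w, inB w → Cc 0 0 (act v w) := by
    intro w hw
    refine ⟨le_rfl, ?_, fun i hi => ?_⟩
    · rw [hv, if_pos rfl, hw 0 le_rfl]; simp
    · rw [hv, if_neg (by omega)]; exact hw i hi.le
  have hgv : ∀ x, ¬ Cc 0 0 x → act (v * g1 * v⁻¹) x = x := by
    intro x hx
    rw [act_mul, act_mul, h3, act_act_inv]
    intro hw
    apply hx
    have := hvC _ hw
    rwa [act_act_inv] at this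
  have hin : ℓ g1 ≤ 2 * ℓ v + C2 := by
    have hKA : KA {x : ℕ | x % 3 ≠ 2} (v * g1 * v⁻¹) := by
      refine ⟨by rw [ht_mul, ht_mul, ht_inv, hv0, h1]; rfl, fun x hx => ?_, fun m c x hx hc => ?_⟩
      · exact hgv x (fun h => not_inB_of_Cc h hx)
      · apply hgv x
        intro h
        obtain ⟨-, rfl⟩ := Cc_uniq hx h
        apply hc
        change 0 % 3 ≠ 2
        norm_num
    have a1 := hC2 _ hKA
    have e : g1 = v⁻¹ * (v * g1 * v⁻¹) * v := by group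
    have a2 := hm (v⁻¹ * (v * g1 * v⁻¹)) v
    have a3 := hm v⁻¹ (v * g1 * v⁻¹)
    rw [hi] at a3
    rw [← e] at a2
    omega
  -- the outer part
  set go := g1⁻¹ * k with hgo
  have hg1i : ht g1⁻¹ = 0 := by rw [ht_inv, h1]; rfl
  have hgo0 : ht go = 0 := by rw [hgo, ht_mul, hg1i, hk.1]; rfl
  have hgoB : ∀ x, inB x → act go x = x := by
    intro x hx
    rw [hgo, act_mul, ← h2 x hx, act_inv_act]
  obtain ⟨ρ, hρ⟩ := exists_Ind hgo0 hgoB
  choose a b c d ha hb hc hd habcd using fun m => perm_decomp (ρ m)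
  obtain ⟨A1, hA1, hA1'⟩ := Phi_exists a
  obtain ⟨B1, hB1, hB1'⟩ := Phi_exists b
  obtain ⟨D0, hD0, hD0'⟩ := Phi_exists c
  obtain ⟨D1, hD1, hD1'⟩ := Phi_exists d
  have kA1 : ℓ A1 ≤ C1 := hC1 _ ⟨hA1.1, hA1.2.1, fun m c x hx hc => hA1' m c x hx (ha m c (by
    by_contra h; exact hc h))⟩
  have kB1 : ℓ B1 ≤ C2 := hC2 _ ⟨hB1.1, hB1.2.1, fun m c x hx hc => hB1' m c x hx (hb m c (by
    by_contra h; exact hc h))⟩
  have kD0 : ℓ D0 ≤ C0 := hC0 _ ⟨hD0.1, hD0.2.1, fun m e x hx he => hD0' m e x hx (hc m e (by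
    by_contra h; exact he h))⟩
  have kD1 : ℓ D1 ≤ C2 := hC2 _ ⟨hD1.1, hD1.2.1, fun m e x hx he => hD1' m e x hx (hd m e (by
    by_contra h; exact he h))⟩
  have hprod := ((hA1.mul hB1).mul hD0).mul hD1
  set w := A1 * B1 * D0 * D1 with hw
  have hg' := hprod.inv.mul hρ
  set g' := w⁻¹ * go with hg'def
  have hg'C : ∀ m c x, Cc m c x → Cc m c (act g' x) := by
    intro m e x hx
    have := hg'.2.2 m e x hx
    dsimp only at this
    rw [habcd m] at this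
    simpa using this
  have hg'z : act g' zz = zz := hg'.2.1 zz inB_zz
  have hg'i0 : ht g'⁻¹ = 0 := by rw [ht_inv, hg'.1]; rfl
  have hg'iC : ∀ m c x, Cc m c x → Cc m c (act g'⁻¹ x) := by
    intro m e x hx
    have := hg'.inv.2.2 m e x hx
    dsimp only at this
    rw [habcd m] at this
    simpa using this
  obtain ⟨k1, k1a, k1b, k1c⟩ := glue (fun _ c => if c % 3 = 2 then 1 else g')
    (fun _ c => if c % 3 = 2 then 1 else g'⁻¹)
    (by intro m e; split_ifs; exacts [ht_one, hg'.1])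
    (by intro m e; split_ifs; exacts [ht_one, hg'i0])
    (by
      intro m e x hx
      refine ⟨e, ?_, ?_⟩
      · split_ifs
        · exact hx
        · exact hg'C m e x hx
      · split_ifs
        · exact inv_one.symm
        · rfl)
    (by
      intro m e x hx
      refine ⟨e, ?_, ?_⟩
      · split_ifs
        · exact hx
        · exact hg'iC m e x hx
      · split_ifs
        · exact inv_one.symm
        · exact (inv_inv _).symm)
  have kk1 : ℓ k1 ≤ C2 := by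
    apply hC2
    refine ⟨k1a, k1b, fun m e x hx he => ?_⟩
    rw [k1c m e x hx, if_pos (by by_contra h; exact he h)]
    rfl
  have kk2 : ℓ (k1⁻¹ * g') ≤ C0 := by
    apply hC0
    refine ⟨by rw [ht_mul, ht_inv, k1a, hg'.1]; rfl, fun x hx => ?_, fun m e x hx he => ?_⟩
    · rw [act_mul, hg'.2.1 x hx, fix_inv k1b x hx]
    · have he' : e % 3 = 0 := by by_contra h; exact he h
      have h5 := k1c m e x hx
      rw [if_neg (by omega)] at h5
      rw [act_mul, ← h5, act_inv_act]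
  have e : k = g1 * ((A1 * B1 * D0 * D1) * (k1 * (k1⁻¹ * g'))) := by
    rw [hg'def, hgo, hw]; group
  have b1 := hm g1 ((A1 * B1 * D0 * D1) * (k1 * (k1⁻¹ * g')))
  have b2 := hm (A1 * B1 * D0 * D1) (k1 * (k1⁻¹ * g'))
  have b3 := hm (A1 * B1 * D0) D1
  have b4 := hm (A1 * B1) D0
  have b5 := hm A1 B1
  have b6 := hm k1 (k1⁻¹ * g')
  rw [← e] at b1
  omega

theorem ne_K : ∃ k ∈ AA.K, AA.t * k * AA.t⁻¹ ∉ AA.K := by
  obtain ⟨v, hv0, hv⟩ := swap_coord (-1)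
  refine ⟨v, ?_, ?_⟩
  · change v ∈ KK
    refine ⟨hv0, fun i hi => ?_⟩
    rw [hv, if_neg (by omega)]
  · intro h
    have h' : tt * v * tt⁻¹ ∈ KK := h
    have h2 : tt ^ (1 : ℤ) * v * tt ^ (-(1 : ℤ)) ∈ KK := by simpa using h'
    rw [conj_mem_KK] at h2
    have h3 := h2.2 (-1) le_rfl
    rw [hv, if_pos rfl] at h3
    simp [zz] at h3

theorem main : QP AA.X ∧ ∀ Y : Set GG, QP Y →
    (∃ C : ℕ, ∀ y ∈ Y, wl AA.X y ≤ C) ∧ (∃ C : ℕ, ∀ x ∈ AA.X, wl Y x ≤ C) :=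
  ⟨AA.QP_X ne_K, fun _ hY => AA.uniq (fun _ hm hi => bdd_K hm hi) mixing hY⟩

end Q46HQ
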