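import Mathlib

set_option autoImplicit false
open Pointwise

namespace Q46HQ

variable {G : Type} [Group G]

/-- word length -/
noncomputable def wl (S : Set G) (g : G) : ℕ := sInf {n : ℕ | g ∈ (S ∪ S⁻¹) ^ n}

/-- Gromov product at the identity -/
noncomputable def gp (S : Set G) (a b : G) : ℝ :=
  ((wl S a : ℝ) + (wl S b : ℝ) - (wl S (a⁻¹ * b) : ℝ)) / 2

/-- loxodromic elements -/
def lox (S : Set G) (g : G) : Prop := ∃ c : ℝ, 0 < c ∧ ∀ n : ℕ, c * (n : ℝ) ≤ (wl S (g ^ n) : ℝ)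

/-- common end -/
def sameEnd (S : Set G) (a b : G) : Prop :=
  ∀ K : ℝ, ∃ N : ℕ, ∀ n m : ℕ, N ≤ n → N ≤ m → K ≤ gp S (a ^ n) (b ^ m)

/-- quasi-parabolic generating sets -/
def QP (S : Set G) : Prop :=
  Subgroup.closure S = ⊤ ∧
  (∃ δ : ℝ, ∀ x y z : G, min (gp S x y) (gp S y z) - δ ≤ gp S x z) ∧
  (∃ g h : G, lox S g ∧ lox S h ∧
    ¬ ((sameEnd S g h ∧ sameEnd S g⁻¹ h⁻¹) ∨
       (sameEnd S g h⁻¹ ∧ sameEnd S g⁻¹ h))) ∧
  (∀ g h : G, lox S g → lox S h →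
    (sameEnd S g h ∨ sameEnd S g h⁻¹ ∨ sameEnd S g⁻¹ h ∨ sameEnd S g⁻¹ h⁻¹))

lemma mem_pow_wl {S : Set G} {g : G} (h : ∃ n : ℕ, g ∈ (S ∪ S⁻¹) ^ n) :
    g ∈ (S ∪ S⁻¹) ^ (wl S g) := by
  have := Nat.sInf_mem (s := {n : ℕ | g ∈ (S ∪ S⁻¹) ^ n}) h
  exact this

lemma wl_le {S : Set G} {g : G} {n : ℕ} (h : g ∈ (S ∪ S⁻¹) ^ n) : wl S g ≤ n :=
  Nat.sInf_le h

lemma inv_mem_pow {S : Set G} : ∀ {n : ℕ} {g : G}, g ∈ (S ∪ S⁻¹) ^ n → g⁻¹ ∈ (S ∪ S⁻¹) ^ n := by
  intro n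
  induction n with
  | zero =>
    intro g hg
    simp only [pow_zero, Set.mem_one] at hg ⊢
    simp [hg]
  | succ n ih =>
    intro g hg
    rw [pow_succ, Set.mem_mul] at hg
    obtain ⟨a, ha, b, hb, rfl⟩ := hg
    rw [pow_succ', Set.mem_mul]
    refine ⟨b⁻¹, ?_, a⁻¹, ih ha, by simp⟩
    rcases hb with hb | hb
    · right; simpa using hb
    · left; simpa using hb

lemma exists_pow {S : Set G} (hS : Subgroup.closure S = ⊤) (g : G) :
    ∃ n : ℕ, g ∈ (S ∪ S⁻¹) ^ n := by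
  have hg : g ∈ Subgroup.closure S := by rw [hS]; trivial
  induction hg using Subgroup.closure_induction with
  | mem x hx => exact ⟨1, by rw [pow_one]; exact Or.inl hx⟩
  | one => exact ⟨0, by simp⟩
  | mul x y _ _ hx hy =>
    obtain ⟨n, hn⟩ := hx
    obtain ⟨m, hm⟩ := hy
    exact ⟨n + m, by rw [pow_add]; exact Set.mul_mem_mul hn hm⟩
  | inv x _ hx =>
    obtain ⟨n, hn⟩ := hx
    exact ⟨n, inv_mem_pow hn⟩

lemma wl_mul {S : Set G} (hS : Subgroup.closure S = ⊤) (a b : G) :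
    wl S (a * b) ≤ wl S a + wl S b := by
  apply wl_le
  rw [pow_add]
  exact Set.mul_mem_mul (mem_pow_wl (exists_pow hS a)) (mem_pow_wl (exists_pow hS b))

lemma wl_inv {S : Set G} (hS : Subgroup.closure S = ⊤) (a : G) : wl S a⁻¹ = wl S a := by
  apply le_antisymm
  · exact wl_le (inv_mem_pow (mem_pow_wl (exists_pow hS a)))
  · have := inv_mem_pow (mem_pow_wl (exists_pow hS a⁻¹))
    rw [inv_inv] at this
    exact wl_le this

lemma wl_one (S : Set G) : wl S (1 : G) = 0 := by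
  have : wl S (1 : G) ≤ 0 := wl_le (by simp)
  omega

lemma wl_gen {S : Set G} {y : G} (hy : y ∈ S) : wl S y ≤ 1 :=
  wl_le (by rw [pow_one]; exact Or.inl hy)

lemma wl_pow {S : Set G} (hS : Subgroup.closure S = ⊤) (a : G) (n : ℕ) :
    wl S (a ^ n) ≤ n * wl S a := by
  induction n with
  | zero => simp [wl_one]
  | succ n ih =>
    rw [pow_succ]
    calc wl S (a ^ n * a) ≤ wl S (a ^ n) + wl S a := wl_mul hS _ _
      _ ≤ n * wl S a + wl S a := by omega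
      _ = (n + 1) * wl S a := by ring

lemma gp_comm {S : Set G} (hS : Subgroup.closure S = ⊤) (a b : G) : gp S a b = gp S b a := by
  unfold gp
  have : wl S (a⁻¹ * b) = wl S (b⁻¹ * a) := by
    rw [← wl_inv hS (a⁻¹ * b)]; simp
  rw [this]; ring

/-- changing the arguments of the length by bounded amounts -/
lemma wl_mul_right_close {S : Set G} (hS : Subgroup.closure S = ⊤) (a u : G) :
    wl S (a * u) ≤ wl S a + wl S u ∧ wl S a ≤ wl S (a * u) + wl S u := by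
  refine ⟨wl_mul hS _ _, ?_⟩
  have := wl_mul hS (a * u) u⁻¹
  rw [wl_inv hS] at this
  simpa using this

lemma wl_mul_left_close {S : Set G} (hS : Subgroup.closure S = ⊤) (a u : G) :
    wl S (u * a) ≤ wl S a + wl S u ∧ wl S a ≤ wl S (u * a) + wl S u := by
  refine ⟨by have := wl_mul hS u a; omega, ?_⟩
  have := wl_mul hS u⁻¹ (u * a)
  rw [wl_inv hS] at this
  have h2 : u⁻¹ * (u * a) = a := by group
  rw [h2] at this
  omega

end Q46HQ
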