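import Pool.Agent.Q46.HQ.Uniq

set_option autoImplicit false

namespace Q46HQ

/-- sequences indexed by the integers with entries in `Option ℕ`, eventually `none` on the right -/
def Sq : Type := {x : ℤ → Option ℕ // ∃ N : ℤ, ∀ i, N ≤ i → x i = none}

/-- agreement from `n` on -/
def E (n : ℤ) (x y : Sq) : Prop := ∀ i, n ≤ i → x.1 i = y.1 i

lemma E.refl (n : ℤ) (x : Sq) : E n x x := fun _ _ => rfl
lemma E.symm {n : ℤ} {x y : Sq} (h : E n x y) : E n y x := fun i hi => (h i hi).symm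
lemma E.trans {n : ℤ} {x y z : Sq} (h : E n x y) (h' : E n y z) : E n x z :=
  fun i hi => (h i hi).trans (h' i hi)
lemma E.mono {n m : ℤ} (hnm : n ≤ m) {x y : Sq} (h : E n x y) : E m x y :=
  fun i hi => h i (by omega)

/-- the zero sequence -/
def zz : Sq := ⟨fun _ => none, 0, fun _ _ => rfl⟩

/-- similarities together with their scaling factor -/
def Sim : Subgroup (Equiv.Perm Sq × Multiplicative ℤ) where
  carrier := {p | ∀ n x y, E n x y ↔ E (n + Multiplicative.toAdd p.2) (p.1 x) (p.1 y)}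
  mul_mem' := by
    intro p q hp hq n x y
    have h1 := hq n x y
    have h2 := hp (n + Multiplicative.toAdd q.2) (q.1 x) (q.1 y)
    rw [h1, h2]
    have e : n + Multiplicative.toAdd q.2 + Multiplicative.toAdd p.2 =
      n + Multiplicative.toAdd (p * q).2 := by
      simp only [Prod.snd_mul, toAdd_mul]; ring
    rw [e]
    rfl
  one_mem' := by
    intro n x y
    simp
  inv_mem' := by
    intro p hp n x y
    have h := hp (n + Multiplicative.toAdd p⁻¹.2) (p⁻¹.1 x) (p⁻¹.1 y)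
    have e : n + Multiplicative.toAdd p⁻¹.2 + Multiplicative.toAdd p.2 = n := by
      simp
    rw [e] at h
    rw [h]
    have e2 : ∀ w, p.1 (p⁻¹.1 w) = w := fun w => by simp
    rw [e2, e2]

/-- the group -/
abbrev GG : Type := Sim

/-- height -/
def ht (g : GG) : ℤ := Multiplicative.toAdd g.1.2

lemma ht_mul (a b : GG) : ht (a * b) = ht a + ht b := by
  simp [ht]

/-- action -/
def act (g : GG) (x : Sq) : Sq := g.1.1 x

lemma act_mul (a b : GG) (x : Sq) : act (a * b) x = act a (act b x) := rfl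
lemma act_one (x : Sq) : act 1 x = x := rfl
lemma act_inv_act (a : GG) (x : Sq) : act a⁻¹ (act a x) = x := by
  rw [← act_mul, inv_mul_cancel]; rfl
lemma act_act_inv (a : GG) (x : Sq) : act a (act a⁻¹ x) = x := by
  rw [← act_mul, mul_inv_cancel]; rfl

lemma act_E (g : GG) (n : ℤ) (x y : Sq) : E n x y ↔ E (n + ht g) (act g x) (act g y) := g.2 n x y

lemma act_E0 {g : GG} (hg : ht g = 0) (n : ℤ) (x y : Sq) : E n x y ↔ E n (act g x) (act g y) := by
  have := act_E g n x y
  rwa [hg, add_zero] at this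

lemma ht_inv (g : GG) : ht g⁻¹ = - ht g := by simp [ht]
lemma ht_one : ht (1 : GG) = 0 := by simp [ht]

lemma GG_ext {a b : GG} (h : ht a = ht b) (h' : ∀ x, act a x = act b x) : a = b := by
  apply Subtype.ext
  apply Prod.ext
  · apply Equiv.ext; exact h'
  · exact h

/-- an element from an isometry -/
noncomputable def mk0 (σ : Equiv.Perm Sq) (h : ∀ n x y, E n x y ↔ E n (σ x) (σ y)) : GG :=
  ⟨(σ, 1), by intro n x y; simpa using h n x y⟩

lemma ht_mk0 (σ : Equiv.Perm Sq) (h : ∀ n x y, E n x y ↔ E n (σ x) (σ y)) : ht (mk0 σ h) = 0 := by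
  simp [ht, mk0]

lemma act_mk0 (σ : Equiv.Perm Sq) (h : ∀ n x y, E n x y ↔ E n (σ x) (σ y)) (x : Sq) :
    act (mk0 σ h) x = σ x := rfl

/-- build an isometry from two mutually inverse one-sided isometries -/
lemma exists_elem (φ ψ : Sq → Sq) (h1 : ∀ x, ψ (φ x) = x) (h2 : ∀ x, φ (ψ x) = x)
    (h3 : ∀ n x y, E n x y → E n (φ x) (φ y)) (h4 : ∀ n x y, E n x y → E n (ψ x) (ψ y)) :
    ∃ g : GG, ht g = 0 ∧ ∀ x, act g x = φ x := by
  refine ⟨mk0 ⟨φ, ψ, h1, h2⟩ ?_, ht_mk0 _ _, fun x => rfl⟩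
  intro n x y
  refine ⟨h3 n x y, fun h => ?_⟩
  have := h4 n _ _ h
  simp only [Equiv.coe_fn_mk] at this
  rwa [h1, h1] at this

/-- the shift -/
def shiftFun (d : ℤ) (x : Sq) : Sq := ⟨fun i => x.1 (i - d), by
  obtain ⟨N, hN⟩ := x.2
  exact ⟨N + d, fun i hi => hN _ (by omega)⟩⟩

lemma shiftFun_shiftFun (d d' : ℤ) (x : Sq) : shiftFun d (shiftFun d' x) = shiftFun (d + d') x := by
  apply Subtype.ext
  funext i
  change x.1 (i - d - d') = x.1 (i - (d + d'))
  rw [sub_sub]

lemma shiftFun_zero (x : Sq) : shiftFun 0 x = x := by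
  apply Subtype.ext
  funext i
  change x.1 (i - 0) = x.1 i
  rw [sub_zero]

def tt : GG := ⟨(⟨shiftFun 1, shiftFun (-1), fun x => by rw [shiftFun_shiftFun]; exact shiftFun_zero x,
    fun x => by rw [shiftFun_shiftFun]; exact shiftFun_zero x⟩, Multiplicative.ofAdd 1), by
  intro n x y
  simp only [toAdd_ofAdd, Equiv.coe_fn_mk]
  constructor
  · intro h i hi
    exact h (i - 1) (by omega)
  · intro h i hi
    have := h (i + 1) (by omega)
    change x.1 (i + 1 - 1) = y.1 (i + 1 - 1) at this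
    simpa using this⟩

lemma ht_tt : ht tt = 1 := by simp [ht, tt]

lemma act_tt (x : Sq) (i : ℤ) : (act tt x).1 i = x.1 (i - 1) := rfl

lemma act_tt_zz : act tt zz = zz := rfl

lemma act_tt_pow (n : ℤ) (x : Sq) : act (tt ^ n) x = shiftFun n x := by
  have hnat : ∀ n : ℕ, ∀ x, act (tt ^ n) x = shiftFun n x := by
    intro n
    induction n with
    | zero => intro x; simp only [pow_zero, act_one]; exact (shiftFun_zero x).symm
    | succ n ih =>
      intro x
      rw [pow_succ, act_mul, ih]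
      change shiftFun n (shiftFun 1 x) = _
      rw [shiftFun_shiftFun]; push_cast; rfl
  cases n with
  | ofNat n => simpa using hnat n x
  | negSucc n =>
    have h1 : act (tt ^ (n + 1)) (shiftFun (Int.negSucc n) x) = x := by
      rw [hnat, shiftFun_shiftFun]
      have : ((n + 1 : ℕ) : ℤ) + Int.negSucc n = 0 := by rw [Int.negSucc_eq]; push_cast; ring
      rw [this]; exact shiftFun_zero x
    rw [zpow_negSucc]
    conv_lhs => rw [← h1]
    rw [act_inv_act]

lemma tt_zz (n : ℤ) : act (tt ^ n) zz = zz := by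
  rw [act_tt_pow]; rfl

/-- stabiliser of the unit ball around zero -/
def KK : Subgroup GG where
  carrier := {g | ht g = 0 ∧ E 0 (act g zz) zz}
  mul_mem' := by
    rintro a b ⟨ha, ha'⟩ ⟨hb, hb'⟩
    refine ⟨by rw [ht_mul, ha, hb]; rfl, ?_⟩
    rw [act_mul]
    exact ((act_E0 ha 0 _ _).mp hb').trans ha'
  one_mem' := ⟨ht_one, E.refl _ _⟩
  inv_mem' := by
    rintro a ⟨ha, ha'⟩
    have hi : ht a⁻¹ = 0 := by rw [ht_inv, ha]; rfl
    refine ⟨hi, ?_⟩
    have := (act_E0 hi 0 _ _).mp ha'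
    rw [act_inv_act] at this
    exact this.symm

lemma mem_KK {g : GG} : g ∈ KK ↔ ht g = 0 ∧ E 0 (act g zz) zz := Iff.rfl

lemma ht_tz (n : ℤ) : ht (tt ^ n) = n := by
  have : ∀ n : ℕ, ht (tt ^ n) = n := by
    intro n
    induction n with
    | zero => simp [ht_one]
    | succ n ih => rw [pow_succ, ht_mul, ih, ht_tt]; push_cast; ring
  cases n with
  | ofNat n => simpa using this n
  | negSucc n => rw [zpow_negSucc, ht_inv, this, Int.negSucc_eq]; push_cast; ring

lemma conj_mem_KK {g : GG} (n : ℤ) : tt ^ n * g * tt ^ (-n) ∈ KK ↔ ht g = 0 ∧ E (-n) (act g zz) zz := by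
  rw [mem_KK]
  have h1 : ht (tt ^ n * g * tt ^ (-n)) = ht g := by
    rw [ht_mul, ht_mul, ht_tz, ht_tz]; ring
  rw [h1]
  have h2 : act (tt ^ n * g * tt ^ (-n)) zz = act (tt ^ n) (act g zz) := by
    rw [act_mul, act_mul, tt_zz]
  rw [h2]
  have h3 := act_E (tt ^ n) (-n) (act g zz) zz
  rw [ht_tz, tt_zz] at h3
  have : -n + n = 0 := by ring
  rw [this] at h3
  rw [h3]

/-- the ascending structure -/
noncomputable def AA : Asc GG where
  h := ht
  h_mul := ht_mul
  t := tt
  h_t := ht_tt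
  K := KK
  h_K := fun k hk => hk.1
  asc := by
    intro k hk
    have := (conj_mem_KK (g := k) (-1)).mpr ⟨hk.1, E.mono (by norm_num) hk.2⟩
    simpa using this
  exh := by
    intro g hg
    obtain ⟨N, hN⟩ := (act g zz).2
    refine ⟨N.toNat, ?_⟩
    have := (conj_mem_KK (g := g) (-(N.toNat : ℤ))).mpr ⟨hg, ?_⟩
    · rw [neg_neg] at this; exact this
    · rw [neg_neg]
      intro i hi
      exact hN i ((Int.self_le_toNat N).trans hi)

/-- restriction of an isometry to an invariant ball -/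
lemma restrict {u : GG} (hu : ht u = 0) (n : ℤ) (a : Sq) (ha : E n (act u a) a) :
    ∃ g : GG, ht g = 0 ∧ (∀ x, E n x a → act g x = act u x) ∧ (∀ x, ¬ E n x a → act g x = x) := by
  classical
  have hui : ht u⁻¹ = 0 := by rw [ht_inv, hu]; rfl
  have hpres : ∀ x, E n x a → E n (act u x) a := fun x hx =>
    ((act_E0 hu n _ _).mp hx).trans ha
  have hpres' : ∀ x, E n x a → E n (act u⁻¹ x) a := by
    intro x hx
    have h1 := (act_E0 hui n _ _).mp ha
    rw [act_inv_act] at h1
    exact ((act_E0 hui n _ _).mp hx).trans h1.symm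
  have gen : ∀ v : GG, ht v = 0 → (∀ x, E n x a → E n (act v x) a) → ∀ m x y, E m x y →
      E m (if E n x a then act v x else x) (if E n y a then act v y else y) := by
    intro v hv hp m x y hxy
    by_cases hx : E n x a <;> by_cases hy : E n y a
    · rw [if_pos hx, if_pos hy]; exact (act_E0 hv m _ _).mp hxy
    · rw [if_pos hx, if_neg hy]
      have hmn : n < m := by
        by_contra h
        push Not at h
        exact hy ((hxy.mono h).symm.trans hx)
      exact (((hp x hx).trans hx.symm).mono hmn.le).trans hxy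
    · rw [if_neg hx, if_pos hy]
      have hmn : n < m := by
        by_contra h
        push Not at h
        exact hx ((hxy.mono h).trans hy)
      exact hxy.trans ((hy.trans (hp y hy).symm).mono hmn.le)
    · rw [if_neg hx, if_neg hy]; exact hxy
  obtain ⟨g, hg, hg'⟩ := exists_elem (fun x => if E n x a then act u x else x)
    (fun x => if E n x a then act u⁻¹ x else x) (by
      intro x
      by_cases hx : E n x a
      · simp only [if_pos hx, if_pos (hpres x hx)]; exact act_inv_act u x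
      · simp only [if_neg hx]) (by
      intro x
      by_cases hx : E n x a
      · simp only [if_pos hx, if_pos (hpres' x hx)]; exact act_act_inv u x
      · simp only [if_neg hx]) (gen u hu hpres) (gen u⁻¹ hui hpres')
  refine ⟨g, hg, fun x hx => ?_, fun x hx => ?_⟩
  · rw [hg' x, if_pos hx]
  · rw [hg' x, if_neg hx]

/-- the mixing property -/
lemma mixing : ∀ k ∈ AA.K, AA.t * k * AA.t⁻¹ ∉ AA.K → ∀ k', AA.t * k' * AA.t⁻¹ ∈ AA.K →
      ∀ p q : ℕ, 1 ≤ p → 1 ≤ q → ∃ k1 k2, AA.t ^ (p : ℤ) * k1 * AA.t ^ (-(p : ℤ)) ∈ AA.K ∧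
        AA.t ^ (q : ℤ) * k2 * AA.t ^ (-(q : ℤ)) ∈ AA.K ∧ k * k' = k1 * k * k2 := by
  intro k hk hkt k' hk' p q hp hq
  change k ∈ KK at hk
  have hkt' : ¬ (ht k = 0 ∧ E (-1) (act k zz) zz) := by
    have hkt2 : tt * k * tt⁻¹ ∉ KK := hkt
    rw [← conj_mem_KK 1]; simpa using hkt2
  have hk'' : ht k' = 0 ∧ E (-1) (act k' zz) zz := by
    have hk2 : tt * k' * tt⁻¹ ∈ KK := hk'
    rw [← conj_mem_KK 1]; simpa using hk2
  have hk0 : ht k = 0 := hk.1
  have hkz : ¬ E (-1) (act k zz) zz := fun h => hkt' ⟨hk0, h⟩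
  have hki : ht k⁻¹ = 0 := by rw [ht_inv, hk0]; rfl
  have hc0 : ht (k * k' * k⁻¹) = 0 := by rw [ht_mul, ht_mul, hk0, hk''.1, hki]; rfl
  have hinv : E (-1) (act (k * k' * k⁻¹) (act k zz)) (act k zz) := by
    rw [act_mul, act_mul, act_inv_act]
    exact (act_E0 hk0 (-1) _ _).mp hk''.2
  obtain ⟨k1, h1, h2, h3⟩ := restrict hc0 (-1) (act k zz) hinv
  have hk1z : act k1 zz = zz := h3 zz (fun h => hkz h.symm)
  have hk1i : ht k1⁻¹ = 0 := by rw [ht_inv, h1]; rfl
  refine ⟨k1, k⁻¹ * k1⁻¹ * k * k', ?_, ?_, by group⟩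
  · apply (conj_mem_KK (p : ℤ)).mpr
    refine ⟨h1, ?_⟩
    rw [hk1z]; exact E.refl _ _
  · apply (conj_mem_KK (q : ℤ)).mpr
    refine ⟨by rw [ht_mul, ht_mul, ht_mul, hki, hk1i, hk0, hk''.1]; rfl, ?_⟩
    have h4 : act k1 (act k zz) = act (k * k') zz := by
      rw [h2 _ (E.refl _ _)]
      rw [act_mul, act_mul, act_inv_act, act_mul]
    have h5 : act (k⁻¹ * k1⁻¹ * k * k') zz = zz := by
      have : act (k⁻¹ * k1⁻¹ * k * k') zz = act k⁻¹ (act k1⁻¹ (act (k * k') zz)) := rfl
      rw [this, ← h4, act_inv_act, act_inv_act]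
    rw [h5]; exact E.refl _ _

end Q46HQ
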