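import Pool.Agent.Q46.HQ.Asc

set_option autoImplicit false
open Pointwise

namespace Q46HQ
namespace Asc

variable {G : Type} [Group G] (A : Asc G)

/-- integral Gromov product -/
noncomputable def E (a b : G) : ℤ := A.J 1 a + A.J 1 b - A.J a b

lemma gp_close (a b : G) : (A.E a b : ℝ) - 1 ≤ gp A.X a b ∧ gp A.X a b ≤ (A.E a b : ℝ) + 1 := by
  have h1 := A.wl_lower a
  have h2 := A.wl_upper a
  have h3 := A.wl_lower b
  have h4 := A.wl_upper b
  have h5 := A.wl_lower (a⁻¹ * b)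
  have h6 := A.wl_upper (a⁻¹ * b)
  have e : A.dT 1 (a⁻¹ * b) = A.dT a b := by
    have := A.dT_left a 1 (a⁻¹ * b)
    rw [mul_one, mul_inv_cancel_left] at this
    exact this.symm
  rw [e] at h5 h6
  have e2 : A.dT 1 a + A.dT 1 b - A.dT a b = 2 * A.E a b := by
    unfold dT E; rw [h_one]; ring
  have g1 : 2 * A.E a b - 1 ≤ (wl A.X a : ℤ) + wl A.X b - wl A.X (a⁻¹ * b) := by omega
  have g2 : (wl A.X a : ℤ) + wl A.X b - wl A.X (a⁻¹ * b) ≤ 2 * A.E a b + 2 := by omega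
  have g1' : (2 * (A.E a b : ℝ) - 1) ≤ (wl A.X a : ℝ) + wl A.X b - wl A.X (a⁻¹ * b) := by
    exact_mod_cast g1
  have g2' : (wl A.X a : ℝ) + wl A.X b - wl A.X (a⁻¹ * b) ≤ 2 * (A.E a b : ℝ) + 2 := by
    exact_mod_cast g2
  unfold gp
  constructor <;> linarith

lemma E_hyp (x y z : G) : min (A.E x y) (A.E y z) ≤ A.E x z := by
  unfold E
  have a1 := A.J_ult 1 x y
  have a2 := A.J_ult x 1 y
  have a3 := A.J_ult 1 y x
  have b1 := A.J_ult 1 x z
  have b2 := A.J_ult x 1 z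
  have b3 := A.J_ult 1 z x
  have c1 := A.J_ult 1 y z
  have c2 := A.J_ult y 1 z
  have c3 := A.J_ult 1 z y
  have d1 := A.J_ult x y z
  have d2 := A.J_ult y x z
  have d3 := A.J_ult x z y
  have e1 := A.J_comm x 1
  have e2 := A.J_comm y 1
  have e3 := A.J_comm z 1
  have e4 := A.J_comm y x
  have e5 := A.J_comm z y
  have e6 := A.J_comm z x
  omega

lemma hyp_X : ∃ δ : ℝ, ∀ x y z : G, min (gp A.X x y) (gp A.X y z) - δ ≤ gp A.X x z := by
  refine ⟨2, fun x y z => ?_⟩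
  have h1 := A.gp_close x y
  have h2 := A.gp_close y z
  have h3 := A.gp_close x z
  have h4 := A.E_hyp x y z
  have h4' : min (A.E x y : ℝ) (A.E y z : ℝ) ≤ (A.E x z : ℝ) := by exact_mod_cast h4
  rcases min_le_iff.mp h4' with h | h
  · have := min_le_left (gp A.X x y) (gp A.X y z)
    linarith
  · have := min_le_right (gp A.X x y) (gp A.X y z)
    linarith

lemma abs_h_le_dT (g : G) : |A.h g| ≤ A.dT 1 g := by
  have h1 := A.h_le_J 1 g
  have h2 := A.h_le_J' 1 g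
  rw [h_one] at h1
  unfold dT; rw [h_one]
  rw [abs_le]; omega

lemma lox_of_h {g : G} (hg : A.h g ≠ 0) : lox A.X g := by
  refine ⟨1, one_pos, fun n => ?_⟩
  rw [one_mul]
  have h1 := A.abs_h_le_dT (g ^ n)
  have h2 := A.wl_lower (g ^ n)
  rw [A.h_pow, abs_mul] at h1
  have h3 : 1 ≤ |A.h g| := Int.one_le_abs hg
  have h4 : (n : ℤ) ≤ |(n : ℤ)| * |A.h g| := by
    rw [abs_of_nonneg (by positivity : (0 : ℤ) ≤ n)]
    nlinarith
  have h5 : (n : ℤ) ≤ wl A.X (g ^ n) := by omega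
  exact_mod_cast h5

lemma J_le_of_Kn {n : ℕ} {g : G} (hg : A.Kn n g) : A.J 1 g ≤ n := by
  rw [A.J_le_iff]
  have h0 := A.Kn_h hg
  refine ⟨by rw [h_one]; omega, by rw [h0]; omega, ?_⟩
  rw [h_one, h0, one_mul, sub_zero, ← zpow_neg, ← mul_assoc]
  exact hg

lemma h_of_lox {g : G} (hg : lox A.X g) : A.h g ≠ 0 := by
  intro h0
  obtain ⟨c, hc, hcn⟩ := hg
  obtain ⟨n, hn⟩ := A.exh' h0
  have hb : ∀ m : ℕ, (wl A.X (g ^ m) : ℝ) ≤ 2 * n + 1 := by
    intro m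
    have h1 := A.J_le_of_Kn (A.Kn_pow hn m)
    have h2 := A.wl_upper (g ^ m)
    have h3 : A.dT 1 (g ^ m) ≤ 2 * n := by
      unfold dT; rw [h_one, A.h_pow, h0]; omega
    have h4 : (wl A.X (g ^ m) : ℤ) ≤ 2 * n + 1 := by omega
    exact_mod_cast h4
  obtain ⟨m, hm⟩ := exists_nat_gt ((2 * n + 1) / c)
  have h1 := hcn m
  have h2 := hb m
  rw [div_lt_iff₀ hc] at hm
  linarith

lemma R_pow {g : G} {N : ℕ} (hg : 0 < A.h g) (hN : A.R (N + A.h g) 1 g) (n : ℕ) :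
    A.R (N + n * A.h g) 1 (g ^ n) := by
  induction n with
  | zero =>
    simp only [pow_zero]
    apply A.R_refl
    rw [h_one]; simp
  | succ n ih =>
    have h1 := A.R_left g ih
    rw [mul_one, ← pow_succ'] at h1
    have h2 : A.R (A.h g + (N + n * A.h g)) 1 g := by
      apply A.R_mono _ hN
      have : (0:ℤ) ≤ n * A.h g := by positivity
      omega
    have h3 := A.R_trans h2 h1
    have e : A.h g + (N + n * A.h g) = N + ((n + 1 : ℕ) : ℤ) * A.h g := by push_cast; ring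
    rw [e] at h3
    exact h3

lemma exists_R {g : G} (hg : 0 < A.h g) : ∃ N : ℕ, A.R (N + A.h g) 1 g := by
  obtain ⟨m, hm⟩ := A.R_exists 1 g
  refine ⟨m.toNat, A.R_mono ?_ hm⟩
  have := Int.self_le_toNat m
  omega

lemma sameEnd_pos {g g' : G} (hg : 0 < A.h g) (hg' : 0 < A.h g') : sameEnd A.X g g' := by
  intro K
  obtain ⟨N, hN⟩ := A.exists_R hg
  obtain ⟨N', hN'⟩ := A.exists_R hg'
  obtain ⟨k, hk⟩ := exists_nat_gt K
  refine ⟨k + 1 + N + N', fun n m hn hm => ?_⟩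
  have h1 := A.J_le_iff.mpr (A.R_pow hg hN n)
  have h2 := A.J_le_iff.mpr (A.R_pow hg' hN' m)
  have h3 := A.h_le_J' 1 (g ^ n)
  have h4 := A.h_le_J' 1 (g' ^ m)
  have h5 := A.J_ult (g ^ n) 1 (g' ^ m)
  rw [A.J_comm (g ^ n) 1] at h5
  rw [A.h_pow] at h3 h4
  have h6 : (n : ℤ) ≤ n * A.h g := by nlinarith
  have h7 : (m : ℤ) ≤ m * A.h g' := by nlinarith
  have h8 : (k : ℤ) + 1 ≤ A.E (g ^ n) (g' ^ m) := by
    unfold E
    generalize (n : ℤ) * A.h g = u at *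
    generalize (m : ℤ) * A.h g' = v at *
    omega
  have h9 := (A.gp_close (g ^ n) (g' ^ m)).1
  have h10 : (k : ℝ) + 1 ≤ (A.E (g ^ n) (g' ^ m) : ℝ) := by exact_mod_cast h8
  linarith

theorem QP_X (hne : ∃ k ∈ A.K, A.t * k * A.t⁻¹ ∉ A.K) : QP A.X := by
  refine ⟨A.closure_X, A.hyp_X, ?_, ?_⟩
  · obtain ⟨k, hk, hkt⟩ := hne
    have hht : A.h (k * A.t * k⁻¹) = 1 := by
      rw [A.h_mul, A.h_mul, A.h_inv, A.h_K k hk, A.h_t]; norm_num
    refine ⟨A.t, k * A.t * k⁻¹, A.lox_of_h (by rw [A.h_t]; norm_num),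
      A.lox_of_h (by rw [hht]; norm_num), ?_⟩
    have hinv : (k * A.t * k⁻¹)⁻¹ = k * A.t⁻¹ * k⁻¹ := by group
    have hpow : ∀ m : ℕ, ((k * A.t * k⁻¹)⁻¹) ^ m = k * A.t ^ (-(m : ℤ)) * k⁻¹ := by
      intro m
      rw [hinv, conj_pow]; simp
    have hJb : ∀ m : ℕ, A.J 1 (k * A.t ^ (-(m : ℤ)) * k⁻¹) ≤ 0 := by
      intro m
      rw [A.J_le_iff]
      have hh : A.h (k * A.t ^ (-(m : ℤ)) * k⁻¹) = -m := by
        rw [A.h_mul, A.h_mul, A.h_inv, A.h_K k hk, h_tz]; ring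
      refine ⟨by rw [h_one], by rw [hh]; omega, ?_⟩
      rw [h_one, hh]
      have := A.K.mul_mem hk (A.asc_pow (A.K.inv_mem hk) m)
      have e : k * (A.t ^ (-(m : ℤ)) * k⁻¹ * A.t ^ (m : ℤ)) =
        (1 * A.t ^ ((0 : ℤ) - 0))⁻¹ * (k * A.t ^ (-(m : ℤ)) * k⁻¹ * A.t ^ ((0 : ℤ) - -(m : ℤ))) := by
        simp [mul_assoc]
      rw [← e]; exact this
    rintro (⟨-, h⟩ | ⟨h, -⟩)
    · obtain ⟨N, hN⟩ := h 2
      have h1 := hN (N + 1) (N + 1) (by omega) (by omega)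
      rw [hpow] at h1
      have e1 : (A.t⁻¹) ^ (N + 1) = A.t ^ (-((N + 1 : ℕ) : ℤ)) := by
        rw [zpow_neg, zpow_natCast, inv_pow]
      rw [e1] at h1
      set a := A.t ^ (-((N + 1 : ℕ) : ℤ)) with ha
      set b := k * A.t ^ (-((N + 1 : ℕ) : ℤ)) * k⁻¹ with hb
      have hJa : A.J 1 a ≤ 0 := by
        rw [A.J_le_iff]
        refine ⟨by rw [h_one], by rw [ha, h_tz]; omega, ?_⟩
        rw [h_one, ha, h_tz, ← zpow_add]
        have e0 : -((N + 1 : ℕ) : ℤ) + (0 - -((N + 1 : ℕ) : ℤ)) = 0 := by ring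
        rw [e0]
        simp [A.K.one_mem]
      have hJab : 0 ≤ A.J a b := by
        by_contra hlt
        push Not at hlt
        have hR : A.R (-1) a b := A.J_le_iff.mp (by omega)
        have h3 := hR.2.2
        have hha : A.h a = -((N + 1 : ℕ) : ℤ) := by rw [ha, h_tz]
        have hhb : A.h b = -((N + 1 : ℕ) : ℤ) := by
          rw [hb, A.h_mul, A.h_mul, A.h_inv, A.h_K k hk, h_tz]; ring
        rw [hha, hhb] at h3
        have h4 := A.asc_pow (A.K.inv_mem hk) N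
        have e : (a * A.t ^ (-1 - -((N + 1 : ℕ) : ℤ)))⁻¹ * (b * A.t ^ (-1 - -((N + 1 : ℕ) : ℤ))) =
            (A.t * k * A.t⁻¹) * (A.t ^ (-(N : ℤ)) * k⁻¹ * A.t ^ (N : ℤ)) := by
          rw [ha, hb]
          have e1 : A.t ^ (-((N + 1 : ℕ) : ℤ)) = A.t⁻¹ * A.t ^ (-(N:ℤ)) := by
            rw [← zpow_neg_one, ← zpow_add]; congr 1; push_cast; ring
          have e2 : A.t ^ (-1 - -((N + 1 : ℕ) : ℤ)) = A.t ^ (N : ℤ) := by
            congr 1; push_cast; ring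
          rw [e1, e2, zpow_neg]; group
        rw [e] at h3
        exact hkt ((A.K.mul_mem_cancel_right h4).mp h3)
      have h5 : A.E a b ≤ 0 := by
        unfold E
        have := hJb (N + 1)
        rw [← hb] at this
        omega
      have h6 := (A.gp_close a b).2
      have h7 : (A.E a b : ℝ) ≤ 0 := by exact_mod_cast h5
      linarith
    · obtain ⟨N, hN⟩ := h 2
      have h1 := hN N N le_rfl le_rfl
      rw [hpow] at h1
      have hJa : A.J 1 (A.t ^ N) ≤ N := by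
        rw [A.J_le_iff]
        refine ⟨by rw [h_one]; omega, by rw [A.h_pow, A.h_t]; omega, ?_⟩
        rw [h_one, A.h_pow, A.h_t]
        simp [A.K.one_mem]
      have hJab := A.h_le_J (A.t ^ N) (k * A.t ^ (-(N : ℤ)) * k⁻¹)
      rw [A.h_pow, A.h_t] at hJab
      have h5 : A.E (A.t ^ N) (k * A.t ^ (-(N : ℤ)) * k⁻¹) ≤ 0 := by
        unfold E
        have := hJb N
        omega
      have h6 := (A.gp_close (A.t ^ N) (k * A.t ^ (-(N : ℤ)) * k⁻¹)).2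
      have h7 : (A.E (A.t ^ N) (k * A.t ^ (-(N : ℤ)) * k⁻¹) : ℝ) ≤ 0 := by exact_mod_cast h5
      linarith
  · intro g g' hg hg'
    have h1 := A.h_of_lox hg
    have h2 := A.h_of_lox hg'
    have hi : ∀ x : G, A.h x⁻¹ = - A.h x := A.h_inv
    rcases lt_or_gt_of_ne h1 with h1 | h1 <;> rcases lt_or_gt_of_ne h2 with h2 | h2
    · exact Or.inr (Or.inr (Or.inr (A.sameEnd_pos (by rw [hi]; omega) (by rw [hi]; omega))))
    · exact Or.inr (Or.inr (Or.inl (A.sameEnd_pos (by rw [hi]; omega) h2)))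
    · exact Or.inr (Or.inl (A.sameEnd_pos h1 (by rw [hi]; omega)))
    · exact Or.inl (A.sameEnd_pos h1 h2)

end Asc
end Q46HQ
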