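import Pool.Agent.Q46.HQ.QPX

set_option autoImplicit false
open Pointwise Filter Topology

namespace Q46HQ

/-- linear beats logarithm -/
lemma lin_log (a b : ℝ) (hb : 0 < b) : ∃ C : ℝ, ∀ k : ℕ, a * k ≤ b * 2 ^ k + C := by
  have h := tendsto_pow_const_div_const_pow_of_one_lt 1 (r := (2:ℝ)) (by norm_num)
  have h2 := h.const_mul a
  rw [mul_zero] at h2
  have h3 := (h2.eventually (gt_mem_nhds hb)).exists_forall_of_atTop
  obtain ⟨n0, hn0⟩ := h3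
  refine ⟨|a| * n0, fun k => ?_⟩
  rcases le_total n0 k with hk | hk
  · have h4 := hn0 k hk
    have h5 : a * (k : ℝ) < b * 2 ^ k := by
      have h2p : (0:ℝ) < 2 ^ k := by positivity
      have : a * ((k:ℝ) ^ 1 / 2 ^ k) * 2 ^ k < b * 2 ^ k := by
        exact mul_lt_mul_of_pos_right h4 h2p
      rw [pow_one, mul_assoc, div_mul_cancel₀ _ h2p.ne'] at this
      exact this
    have : (0:ℝ) ≤ |a| * n0 := by positivity
    linarith
  · have h5 : a * (k : ℝ) ≤ |a| * n0 := by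
      have hk' : (k : ℝ) ≤ n0 := by exact_mod_cast hk
      calc a * (k : ℝ) ≤ |a| * k := by gcongr; exact le_abs_self a
        _ ≤ |a| * n0 := by gcongr
    have : (0:ℝ) ≤ b * 2 ^ k := by positivity
    linarith

/-- abstract hyperbolicity argument on the half line -/
lemma key_F (F : ℕ → ℕ → ℝ) (δ c C : ℝ) (hδ : 0 ≤ δ) (hc : 0 < c)
    (hF0 : ∀ i, c * i - C ≤ F i i) (hF1 : ∀ i : ℕ, c * i - C ≤ F i (i + 1))
    (hhyp : ∀ i j k, min (F i j) (F j k) - δ ≤ F i k) (hsymm : ∀ i j, F i j = F j i) :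
    ∀ K : ℝ, ∃ N : ℕ, ∀ i j : ℕ, N ≤ i → N ≤ j → K ≤ F i j := by
  have L1 : ∀ k : ℕ, ∀ i j : ℕ, i ≤ j → j ≤ i + 2 ^ k → c * i - C - δ * k ≤ F i j := by
    intro k
    induction k with
    | zero =>
      intro i j hij hj
      simp only [pow_zero] at hj
      have : j = i ∨ j = i + 1 := by omega
      rcases this with rfl | rfl
      · simpa using hF0 j
      · simpa using hF1 i
    | succ k ih =>
      intro i j hij hj
      have hpk : 2 ^ (k + 1) = 2 ^ k + 2 ^ k := by ring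
      set m := min j (i + 2 ^ k) with hm
      have h1 : i ≤ m := by omega
      have h2 : m ≤ i + 2 ^ k := by omega
      have h3 : m ≤ j := by omega
      have h4 : j ≤ m + 2 ^ k := by omega
      have a1 := ih i m h1 h2
      have a2 := ih m j h3 h4
      have a3 := hhyp i m j
      have a4 : c * i ≤ c * m := by gcongr
      push_cast
      rcases le_total (F i m) (F m j) with h | h
      · rw [min_eq_left h] at a3; nlinarith
      · rw [min_eq_right h] at a3; nlinarith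
  obtain ⟨C3, hC3⟩ := lin_log δ (c / 4) (by positivity)
  have G1 : ∀ i j : ℕ, i ≤ j → j ≤ 2 * i → c / 2 * i - (C + |C3|) ≤ F i j := by
    intro i j hij hj
    rcases Nat.lt_or_ge i 2 with hi | hi
    · have h1 := L1 0 i j hij (by simp; omega)
      have : (0:ℝ) ≤ |C3| := abs_nonneg _
      have h2 : c / 2 * i ≤ c * i := by
        have : (0:ℝ) ≤ i := by positivity
        nlinarith
      simp at h1
      linarith
    · set k := Nat.clog 2 i with hk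
      have h1 : i ≤ 2 ^ k := Nat.le_pow_clog (by norm_num) i
      have h2 : 2 ^ (k - 1) < i := Nat.pow_pred_clog_lt_self (by norm_num) hi
      have hk1 : 1 ≤ k := by
        by_contra h
        have : k = 0 := by omega
        rw [this] at h1; simp at h1; omega
      have h3 : 2 ^ k < 2 * i := by
        have : 2 ^ k = 2 * 2 ^ (k - 1) := by
          rw [← pow_succ']; congr 1; omega
        omega
      have h4 := L1 k i j hij (by omega)
      have h5 := hC3 k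
      have h6 : (2:ℝ) ^ k ≤ 2 * i := by exact_mod_cast h3.le
      have h7 : c / 4 * 2 ^ k ≤ c / 4 * (2 * i) := by gcongr
      have := le_abs_self C3
      linarith
  obtain ⟨i0, hi0⟩ := exists_nat_gt (4 * δ / c)
  have hi0' : ∀ i : ℕ, i0 ≤ i → δ ≤ c / 4 * i := by
    intro i hi
    have : (i0 : ℝ) ≤ i := by exact_mod_cast hi
    rw [div_lt_iff₀ hc] at hi0
    nlinarith
  have G2 : ∀ d : ℕ, ∀ i j : ℕ, i0 ≤ i → 1 ≤ i → i ≤ j → j - i ≤ d → c / 4 * i - (C + |C3|) ≤ F i j := by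
    intro d
    induction d using Nat.strong_induction_on with
    | _ d ih =>
      intro i j hi hi1 hij hd
      rcases Nat.le_total j (2 * i) with h | h
      · have h1 := G1 i j hij h
        have h2 : c / 4 * i ≤ c / 2 * i := by
          have : (0:ℝ) ≤ i := by positivity
          nlinarith
        linarith
      · rcases Nat.eq_or_lt_of_le h with h' | h'
        · have h1 := G1 i j hij (by omega)
          have h2 : c / 4 * i ≤ c / 2 * i := by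
            have : (0:ℝ) ≤ i := by positivity
            nlinarith
          linarith
        · have h1 := G1 i (2 * i) (by omega) le_rfl
          have h2 := ih (j - 2 * i) (by omega) (2 * i) j (by omega) (by omega) (by omega) le_rfl
          have h3 := hhyp i (2 * i) j
          have h4 := hi0' i hi
          push_cast at h2
          rcases le_total (F i (2 * i)) (F (2 * i) j) with h5 | h5
          · rw [min_eq_left h5] at h3; linarith
          · rw [min_eq_right h5] at h3; linarith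
  intro K
  obtain ⟨N, hN⟩ := exists_nat_gt (4 * (K + (C + |C3|)) / c)
  refine ⟨N + i0 + 1, fun i j hi hj => ?_⟩
  have key : ∀ i : ℕ, N + i0 + 1 ≤ i → K ≤ c / 4 * i - (C + |C3|) := by
    intro i hi
    have : (N : ℝ) ≤ i := by exact_mod_cast (by omega : N ≤ i)
    rw [div_lt_iff₀ hc] at hN
    nlinarith
  rcases Nat.le_total i j with h | h
  · exact (key i hi).trans (G2 _ i j (by omega) (by omega) h le_rfl)
  · rw [hsymm]
    exact (key j hj).trans (G2 _ j i (by omega) (by omega) h le_rfl)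

namespace Asc

variable {G : Type} [Group G] (A : Asc G)

section
variable {Y : Set G} (hcl : Subgroup.closure Y = ⊤) {CK : ℕ} (hCK : ∀ k ∈ A.K, wl Y k ≤ CK)
include hcl hCK

lemma wl_tpow (n : ℕ) : wl Y (A.t ^ (n : ℤ)) ≤ n * wl Y A.t := by
  rw [zpow_natCast]; exact wl_pow hcl _ _

lemma wl_tneg (n : ℤ) : wl Y (A.t ^ (-n)) = wl Y (A.t ^ n) := by
  rw [zpow_neg, wl_inv hcl]

lemma wl_Kn {n : ℕ} {g : G} (hg : A.Kn n g) : wl Y g ≤ CK + 2 * n * wl Y A.t := by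
  have h1 := hCK _ hg
  have e : g = A.t ^ (n : ℤ) * (A.t ^ (-(n : ℤ)) * g * A.t ^ (n : ℤ)) * A.t ^ (-(n : ℤ)) := by
    rw [zpow_neg]; group
  have h2 := wl_mul hcl (A.t ^ (n : ℤ) * (A.t ^ (-(n : ℤ)) * g * A.t ^ (n : ℤ))) (A.t ^ (-(n : ℤ)))
  have h3 := wl_mul hcl (A.t ^ (n : ℤ)) (A.t ^ (-(n : ℤ)) * g * A.t ^ (n : ℤ))
  have h4 := A.wl_tpow hcl hCK n
  have h5 := A.wl_tneg hcl hCK n
  rw [← e] at h2
  nlinarith

lemma h_of_loxY {g : G} (hg : lox Y g) : A.h g ≠ 0 := by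
  intro h0
  obtain ⟨c, hc, hcn⟩ := hg
  obtain ⟨n, hn⟩ := A.exh' h0
  obtain ⟨m, hm⟩ := exists_nat_gt (((CK + 2 * n * wl Y A.t : ℕ) : ℝ) / c)
  have h1 := hcn m
  have h2 : (wl Y (g ^ m) : ℝ) ≤ ((CK + 2 * n * wl Y A.t : ℕ) : ℝ) := by
    exact_mod_cast A.wl_Kn hcl hCK (A.Kn_pow hn m)
  rw [div_lt_iff₀ hc] at hm
  linarith

omit hCK in
lemma lox_inv {g : G} (hg : lox Y g) : lox Y g⁻¹ := by
  obtain ⟨c, hc, hcn⟩ := hg
  refine ⟨c, hc, fun n => ?_⟩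
  rw [inv_pow, wl_inv hcl]
  exact hcn n

lemma t_lox {g : G} (hg : lox Y g) : ∃ c C : ℝ, 0 < c ∧ 0 ≤ C ∧
    ∀ n : ℕ, c * n - C ≤ wl Y (A.t ^ n) := by
  have hg0 := A.h_of_loxY hcl hCK hg
  obtain ⟨g, hg, hpos⟩ : ∃ g, lox Y g ∧ 0 < A.h g := by
    rcases lt_or_gt_of_ne hg0 with h | h
    · exact ⟨g⁻¹, lox_inv hcl hg, by rw [A.h_inv]; omega⟩
    · exact ⟨g, hg, h⟩
  obtain ⟨N, hN⟩ := A.exists_R hpos
  obtain ⟨c, hc, hcn⟩ := hg
  obtain ⟨p, hp⟩ := Int.eq_ofNat_of_zero_le hpos.le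
  have hp1 : 1 ≤ p := by omega
  set s := wl Y A.t with hs
  have h1 : ∀ n : ℕ, c * n ≤ wl Y (A.t ^ (n * p)) + (CK + 2 * N * s : ℕ) := by
    intro n
    have hR := (A.R_pow hpos hN n).2.2
    rw [A.h_one, A.h_pow, hp] at hR
    have e1 : (N : ℤ) + n * (p : ℤ) - 0 = (N : ℤ) + ((n * p : ℕ) : ℤ) := by push_cast; ring
    have e2 : (N : ℤ) + n * (p : ℤ) - n * (p : ℤ) = N := by ring
    rw [e1, e2, one_mul] at hR
    have h2 := hCK _ hR
    have e : g ^ n = A.t ^ (N : ℤ) * A.t ^ (n * p) * ((A.t ^ ((N : ℤ) + ((n * p : ℕ) : ℤ)))⁻¹ *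
        (g ^ n * A.t ^ (N : ℤ))) * A.t ^ (-(N : ℤ)) := by
      rw [zpow_add, zpow_natCast A.t (n * p), zpow_neg]; group
    have h3 := wl_mul hcl (A.t ^ (N : ℤ) * A.t ^ (n * p) * ((A.t ^ ((N : ℤ) + ((n * p : ℕ) : ℤ)))⁻¹ *
        (g ^ n * A.t ^ (N : ℤ)))) (A.t ^ (-(N : ℤ)))
    have h4 := wl_mul hcl (A.t ^ (N : ℤ) * A.t ^ (n * p)) ((A.t ^ ((N : ℤ) + ((n * p : ℕ) : ℤ)))⁻¹ *
        (g ^ n * A.t ^ (N : ℤ)))
    have h5 := wl_mul hcl (A.t ^ (N : ℤ)) (A.t ^ (n * p))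
    have h6 := A.wl_tpow hcl hCK N
    have h7 := A.wl_tneg hcl hCK N
    rw [← e] at h3
    have h8 : wl Y (g ^ n) ≤ wl Y (A.t ^ (n * p)) + (CK + 2 * N * s) := by
      rw [← hs] at h6
      nlinarith
    have h9 : (wl Y (g ^ n) : ℝ) ≤ wl Y (A.t ^ (n * p)) + (CK + 2 * N * s : ℕ) := by
      exact_mod_cast h8
    exact (hcn n).trans h9
  refine ⟨c / p, c + (CK + 2 * N * s : ℕ) + p * s, by positivity, by positivity, fun i => ?_⟩
  set n := i / p with hn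
  set r := i % p with hr
  have hi : i = n * p + r := by rw [hn, hr]; exact (Nat.div_add_mod' i p).symm
  have hrp : r < p := Nat.mod_lt _ hp1
  have h2 := h1 n
  have h3 : wl Y (A.t ^ (n * p)) ≤ wl Y (A.t ^ i) + p * s := by
    have h4 := (wl_mul_right_close hcl (A.t ^ (n * p)) (A.t ^ r)).2
    rw [← pow_add, ← hi] at h4
    have h5 := wl_pow hcl A.t r
    have h6 : r * wl Y A.t ≤ p * s := Nat.mul_le_mul hrp.le le_rfl
    omega
  have h3' : (wl Y (A.t ^ (n * p)) : ℝ) ≤ wl Y (A.t ^ i) + p * s := by exact_mod_cast h3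
  have h4 : c / p * i ≤ c * n + c := by
    have hpR : (0:ℝ) < p := by exact_mod_cast hp1
    have h5 : (i : ℝ) ≤ (n + 1) * p := by
      have : i ≤ (n + 1) * p := by rw [add_mul]; omega
      exact_mod_cast this
    calc c / p * i ≤ c / p * ((n + 1) * p) := by gcongr
      _ = c * n + c := by field_simp
  linarith

end

lemma key_t {Y : Set G} (hY : QP Y) {CK : ℕ} (hCK : ∀ k ∈ A.K, wl Y k ≤ CK) :
    ∀ K : ℝ, ∃ N : ℕ, ∀ i j : ℕ, N ≤ i → N ≤ j → K ≤ gp Y (A.t ^ i) (A.t ^ j) := by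
  obtain ⟨hcl, ⟨δ, hδ⟩, ⟨g, g', hg, -, -⟩, -⟩ := hY
  obtain ⟨c, C, hc, hC, hlow⟩ := A.t_lox hcl hCK hg
  apply key_F (fun i j => gp Y (A.t ^ i) (A.t ^ j)) (max δ 0) c (C + wl Y A.t) (le_max_right _ _) hc
  · intro i
    have h1 := hlow i
    have h2 : gp Y (A.t ^ i) (A.t ^ i) = wl Y (A.t ^ i) := by
      unfold gp; rw [inv_mul_cancel, wl_one]; push_cast; ring
    simp only [h2]
    have : (0:ℝ) ≤ wl Y A.t := by positivity
    linarith
  · intro i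
    have h1 := hlow i
    have h2 := hlow (i + 1)
    have h3 : (A.t ^ i)⁻¹ * A.t ^ (i + 1) = A.t := by rw [pow_succ]; group
    simp only [gp, h3]
    push_cast at h2
    have : (0:ℝ) ≤ wl Y A.t := by positivity
    linarith
  · intro i j k
    have := hδ (A.t ^ i) (A.t ^ j) (A.t ^ k)
    have h2 := le_max_left δ 0
    linarith
  · intro i j
    exact gp_comm hcl _ _

lemma sameEnd_of_bdd {Y : Set G} (hY : QP Y) {CK : ℕ} (hCK : ∀ k ∈ A.K, wl Y k ≤ CK)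
    {C0 : ℕ} (hC0 : ∀ g, A.h g = 0 → wl Y g ≤ C0) {a b : G}
    (hab : (0 < A.h a ∧ 0 < A.h b) ∨ (A.h a < 0 ∧ A.h b < 0)) : sameEnd Y a b := by
  have hcl := hY.1
  obtain ⟨ε, hε, p, q, hp, hq, hap, hbq⟩ : ∃ ε : ℤ, (ε = 1 ∨ ε = -1) ∧ ∃ p q : ℕ, 1 ≤ p ∧ 1 ≤ q ∧
      A.h a = ε * p ∧ A.h b = ε * q := by
    rcases hab with ⟨h1, h2⟩ | ⟨h1, h2⟩
    · obtain ⟨p, hp⟩ := Int.eq_ofNat_of_zero_le h1.le
      obtain ⟨q, hq⟩ := Int.eq_ofNat_of_zero_le h2.le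
      exact ⟨1, Or.inl rfl, p, q, by omega, by omega, by omega, by omega⟩
    · obtain ⟨p, hp⟩ := Int.eq_ofNat_of_zero_le (by omega : 0 ≤ - A.h a)
      obtain ⟨q, hq⟩ := Int.eq_ofNat_of_zero_le (by omega : 0 ≤ - A.h b)
      exact ⟨-1, Or.inr rfl, p, q, by omega, by omega, by omega, by omega⟩
  intro K
  obtain ⟨N, hN⟩ := A.key_t hY hCK (K + 2 * C0)
  refine ⟨N, fun n m hn hm => ?_⟩
  have hn' : N ≤ p * n := by nlinarith
  have hm' : N ≤ q * m := by nlinarith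
  have h1 := hN (p * n) (q * m) hn' hm'
  -- write powers as t-power times bounded
  set u := A.t ^ (-(ε * (p * n : ℕ))) * a ^ n with hu
  set v := A.t ^ (-(ε * (q * m : ℕ))) * b ^ m with hv
  have hu0 : A.h u = 0 := by
    rw [hu, A.h_mul, A.h_tz, A.h_pow, hap]; push_cast; ring
  have hv0 : A.h v = 0 := by
    rw [hv, A.h_mul, A.h_tz, A.h_pow, hbq]; push_cast; ring
  have ea : a ^ n = A.t ^ (ε * (p * n : ℕ)) * u := by rw [hu, zpow_neg]; group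
  have eb : b ^ m = A.t ^ (ε * (q * m : ℕ)) * v := by rw [hv, zpow_neg]; group
  have hwε : ∀ z : ℤ, wl Y (A.t ^ (ε * z)) = wl Y (A.t ^ z) := by
    intro z
    rcases hε with rfl | rfl
    · rw [one_mul]
    · rw [neg_one_mul, zpow_neg, wl_inv hcl]
  have k1 := (wl_mul_right_close hcl (A.t ^ (ε * (p * n : ℕ))) u).2
  have k2 := (wl_mul_right_close hcl (A.t ^ (ε * (q * m : ℕ))) v).2
  have k3 : wl Y ((a ^ n)⁻¹ * b ^ m) ≤ wl Y ((A.t ^ (p * n))⁻¹ * A.t ^ (q * m)) + 2 * C0 := by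
    have e : (a ^ n)⁻¹ * b ^ m = u⁻¹ * (A.t ^ (ε * ((q * m : ℕ) - (p * n : ℕ) : ℤ)) * v) := by
      rw [ea, eb]
      have : ε * ((q * m : ℕ) - (p * n : ℕ) : ℤ) = -(ε * (p * n : ℕ)) + ε * (q * m : ℕ) := by ring
      rw [this, zpow_add, zpow_neg]; group
    have e2 : (A.t ^ (p * n))⁻¹ * A.t ^ (q * m) = A.t ^ ((q * m : ℕ) - (p * n : ℕ) : ℤ) := by
      rw [← zpow_natCast, ← zpow_natCast, ← zpow_neg, ← zpow_add]; congr 1; ring
    rw [e, e2, ← hwε]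
    have k4 := wl_mul hcl u⁻¹ (A.t ^ (ε * ((q * m : ℕ) - (p * n : ℕ) : ℤ)) * v)
    have k5 := wl_mul hcl (A.t ^ (ε * ((q * m : ℕ) - (p * n : ℕ) : ℤ))) v
    have k6 := hC0 u hu0
    have k7 := hC0 v hv0
    rw [wl_inv hcl] at k4
    omega
  rw [← ea, hwε] at k1
  rw [← eb, hwε] at k2
  have k6 := hC0 u hu0
  have k7 := hC0 v hv0
  rw [zpow_natCast] at k1 k2
  have k1' : (wl Y (A.t ^ (p * n)) : ℝ) ≤ wl Y (a ^ n) + C0 := by
    have : wl Y (A.t ^ (p * n)) ≤ wl Y (a ^ n) + C0 := by omega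
    exact_mod_cast this
  have k2' : (wl Y (A.t ^ (q * m)) : ℝ) ≤ wl Y (b ^ m) + C0 := by
    have : wl Y (A.t ^ (q * m)) ≤ wl Y (b ^ m) + C0 := by omega
    exact_mod_cast this
  have k3' : (wl Y ((a ^ n)⁻¹ * b ^ m) : ℝ) ≤ wl Y ((A.t ^ (p * n))⁻¹ * A.t ^ (q * m)) + 2 * C0 := by
    exact_mod_cast k3
  unfold gp at *
  linarith

theorem uniq
    (hB : ∀ ℓ : G → ℕ, (∀ a b, ℓ (a * b) ≤ ℓ a + ℓ b) → (∀ a, ℓ a⁻¹ = ℓ a) →
      ∃ C : ℕ, ∀ k ∈ A.K, ℓ k ≤ C)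
    (hM : ∀ k ∈ A.K, A.t * k * A.t⁻¹ ∉ A.K → ∀ k', A.t * k' * A.t⁻¹ ∈ A.K →
      ∀ p q : ℕ, 1 ≤ p → 1 ≤ q → ∃ k1 k2, A.t ^ (p : ℤ) * k1 * A.t ^ (-(p : ℤ)) ∈ A.K ∧
        A.t ^ (q : ℤ) * k2 * A.t ^ (-(q : ℤ)) ∈ A.K ∧ k * k' = k1 * k * k2)
    {Y : Set G} (hY : QP Y) :
    (∃ C : ℕ, ∀ y ∈ Y, wl A.X y ≤ C) ∧ (∃ C : ℕ, ∀ x ∈ A.X, wl Y x ≤ C) := by
  have hcl := hY.1
  obtain ⟨CK, hCK⟩ := hB (wl Y) (wl_mul hcl) (wl_inv hcl)
  refine ⟨?_, max CK (wl Y A.t), ?_⟩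
  swap
  · intro x hx
    rcases hx with hx | hx
    · exact (hCK x hx).trans (le_max_left _ _)
    · rw [hx]; exact le_max_right _ _
  by_contra hcon
  push Not at hcon
  obtain ⟨g0, g0', hg0, hg0', hne⟩ := hY.2.2.1
  obtain ⟨c, C, hc, hC, hlow⟩ := A.t_lox hcl hCK hg0
  obtain ⟨N0, hN0⟩ := exists_nat_gt ((1 + CK + C) / c)
  have hN0' : ∀ i : ℕ, N0 ≤ i → 1 + CK < wl Y (A.t ^ i) := by
    intro i hi
    have h1 := hlow i
    have h2 : (N0 : ℝ) ≤ i := by exact_mod_cast hi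
    rw [div_lt_iff₀ hc] at hN0
    have h3 : ((1 + CK : ℕ) : ℝ) < wl Y (A.t ^ i) := by push_cast; nlinarith
    exact_mod_cast h3
  -- the double coset argument
  have hD : ∀ (p q : ℕ) (k : G), k ∈ A.K → A.t * k * A.t⁻¹ ∉ A.K → 1 ≤ p → 1 ≤ q →
      ∀ y, y = A.t ^ (p : ℤ) * k * A.t ^ (-(q : ℤ)) → wl Y y ≤ 1 →
      ∀ w, A.Kn (q - 1 : ℤ) w → wl Y w ≤ 2 + 2 * CK := by
    intro p q k hk hkt hp hq y hy hy1 w hw
    have hk' : A.t * (A.t ^ (-(q : ℤ)) * w * A.t ^ (q : ℤ)) * A.t⁻¹ ∈ A.K := by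
      have e : A.t * (A.t ^ (-(q : ℤ)) * w * A.t ^ (q : ℤ)) * A.t⁻¹ =
          A.t ^ (-((q : ℤ) - 1)) * w * A.t ^ ((q : ℤ) - 1) := by
        have e1 : A.t ^ (-((q : ℤ) - 1)) = A.t * A.t ^ (-(q : ℤ)) := by
          rw [← zpow_one_add]; congr 1; ring
        have e2 : A.t ^ ((q : ℤ) - 1) = A.t ^ (q : ℤ) * A.t⁻¹ := by
          rw [← zpow_sub_one]
        rw [e1, e2]; simp only [mul_assoc]
      rw [e]; exact hw
    obtain ⟨k1, k2, h1, h2, h3⟩ := hM k hk hkt _ hk' p q hp hq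
    have e : w = y⁻¹ * (A.t ^ (p : ℤ) * k1 * A.t ^ (-(p : ℤ))) * y *
        (A.t ^ (q : ℤ) * k2 * A.t ^ (-(q : ℤ))) := by
      have h4 : y * w = (A.t ^ (p : ℤ) * k1 * A.t ^ (-(p : ℤ))) * y *
        (A.t ^ (q : ℤ) * k2 * A.t ^ (-(q : ℤ))) := by
        have e1 : y * w = A.t ^ (p : ℤ) * (k * (A.t ^ (-(q : ℤ)) * w * A.t ^ (q : ℤ))) * A.t ^ (-(q : ℤ)) := by
          rw [hy, zpow_neg]; group
        rw [e1, h3, hy, zpow_neg, zpow_neg]; group
      calc w = y⁻¹ * (y * w) := by group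
        _ = _ := by rw [h4]; group
    have a1 := wl_mul hcl (y⁻¹ * (A.t ^ (p : ℤ) * k1 * A.t ^ (-(p : ℤ))) * y) (A.t ^ (q : ℤ) * k2 * A.t ^ (-(q : ℤ)))
    have a2 := wl_mul hcl (y⁻¹ * (A.t ^ (p : ℤ) * k1 * A.t ^ (-(p : ℤ)))) y
    have a3 := wl_mul hcl y⁻¹ (A.t ^ (p : ℤ) * k1 * A.t ^ (-(p : ℤ)))
    have a4 := hCK _ h1
    have a5 := hCK _ h2
    rw [wl_inv hcl] at a3
    rw [← e] at a1
    omega
  have hC0 : ∀ g, A.h g = 0 → wl Y g ≤ 2 + 2 * CK := by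
    intro g hg
    obtain ⟨n, hn⟩ := A.exh' hg
    obtain ⟨y, hy, hyn⟩ := hcon (N0 + 2 * n + 5)
    obtain ⟨p, q, k, hk, hyf, hd, hh, hJ⟩ := A.normal_form y
    have hup := A.wl_upper y
    have hpq : N0 + 2 * n + 5 ≤ p + q := by omega
    have hy1 : wl Y y ≤ 1 := wl_gen hy
    -- exclude pure powers
    have hp : 1 ≤ p := by
      by_contra hp
      have hp0 : p = 0 := by omega
      subst hp0
      have e : A.t ^ (-(q : ℤ)) = k⁻¹ * y := by rw [hyf]; simp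
      have a1 := wl_mul hcl k⁻¹ y
      rw [← e, wl_inv hcl, A.wl_tneg hcl hCK, zpow_natCast] at a1
      have a2 := hCK k hk
      have a3 := hN0' q (by omega)
      omega
    have hq : 1 ≤ q := by
      by_contra hq
      have hq0 : q = 0 := by omega
      subst hq0
      have e : A.t ^ (p : ℤ) = y * k⁻¹ := by rw [hyf]; simp
      have a1 := wl_mul hcl y k⁻¹
      rw [← e, wl_inv hcl, zpow_natCast] at a1
      have a2 := hCK k hk
      have a3 := hN0' p (by omega)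
      omega
    have hkt : A.t * k * A.t⁻¹ ∉ A.K := by
      intro hkt
      have : A.J 1 y ≤ p - 1 := by
        rw [A.J_le_iff]
        refine ⟨by rw [A.h_one]; omega, by rw [hh]; omega, ?_⟩
        rw [A.h_one, hh, hyf]
        have e : (1 * A.t ^ ((p : ℤ) - 1 - 0))⁻¹ * (A.t ^ (p : ℤ) * k * A.t ^ (-(q : ℤ)) *
            A.t ^ ((p : ℤ) - 1 - (p - q))) = A.t * k * A.t⁻¹ := by
          have e1 : A.t ^ ((p : ℤ) - 1 - (p - q)) = A.t ^ (q : ℤ) * A.t⁻¹ := by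
            rw [← zpow_sub_one]; congr 1; ring
          have e2 : A.t ^ ((p : ℤ) - 1 - 0) = A.t ^ (p : ℤ) * A.t⁻¹ := by
            rw [← zpow_sub_one]; congr 1; ring
          rw [e1, e2, zpow_neg]; group
        rw [e]; exact hkt
      omega
    rcases Nat.le_total p q with h | h
    · exact hD p q k hk hkt hp hq y hyf hy1 g (A.Kn_mono (by omega) hn)
    · have hkt' : A.t * k⁻¹ * A.t⁻¹ ∉ A.K := by
        intro h'
        apply hkt
        have := A.K.inv_mem h'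
        have e : (A.t * k⁻¹ * A.t⁻¹)⁻¹ = A.t * k * A.t⁻¹ := by group
        rw [e] at this; exact this
      exact hD q p k⁻¹ (A.K.inv_mem hk) hkt' hq hp y⁻¹
        (by rw [hyf, zpow_neg, zpow_neg]; group) (by rw [wl_inv hcl]; exact hy1) g
        (A.Kn_mono (by omega) hn)
  -- contradiction
  have hg1 := A.h_of_loxY hcl hCK hg0
  have hg2 := A.h_of_loxY hcl hCK hg0'
  apply hne
  have S := fun {a b : G} (hab : (0 < A.h a ∧ 0 < A.h b) ∨ (A.h a < 0 ∧ A.h b < 0)) =>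
    A.sameEnd_of_bdd hY hCK hC0 hab
  have i1 := A.h_inv g0
  have i2 := A.h_inv g0'
  rcases lt_or_gt_of_ne hg1 with h1 | h1 <;> rcases lt_or_gt_of_ne hg2 with h2 | h2
  · exact Or.inl ⟨S (Or.inr ⟨h1, h2⟩), S (Or.inl ⟨by omega, by omega⟩)⟩
  · exact Or.inr ⟨S (Or.inr ⟨h1, by omega⟩), S (Or.inl ⟨by omega, h2⟩)⟩
  · exact Or.inr ⟨S (Or.inl ⟨h1, by omega⟩), S (Or.inr ⟨by omega, h2⟩)⟩
  · exact Or.inl ⟨S (Or.inl ⟨h1, h2⟩), S (Or.inr ⟨by omega, by omega⟩)⟩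

end Asc
end Q46HQ
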